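import Pool.Agent.H22K.Two

/-!
The numerical data of the two decks, and the two reconstruction theorems for ordered sets.
-/

namespace Pool.Agent.H22K

universe u

variable {P Q : Type u} [PartialOrder P] [PartialOrder Q] [Finite P] [Finite Q]

omit [Finite P] in
lemma sord (P : Type u) [PartialOrder P] : SOrd (lt' P) :=
  ⟨fun _ h => lt_irrefl _ h, fun _ _ _ h h' => lt_trans h h'⟩

/-- what the two decks give -/
theorem SameDecks.data (h : SameDecks P Q) :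
    (∀ j, {w | Sink (lt' P) w ∧ dn (lt' P) w ≤ j}.ncard =
      {w | Sink (lt' Q) w ∧ dn (lt' Q) w ≤ j}.ncard) ∧
    ∃ eE : {x // ¬ Sink (lt' P) x} ≃ {x // ¬ Sink (lt' Q) x},
      (∀ x, Nonempty (del (lt' P) x.1 ≃r del (lt' Q) (eE x).1)) ∧
      ∀ x, up (lt' P) x.1 = up (lt' Q) (eE x).1 := by
  obtain ⟨eM, hM⟩ := h.exists_max
  obtain ⟨eE, hE⟩ := h.exists_enh
  have harcs := arcs_eq _ _ (sord P).irr (sord Q).irr eM hM eE hE
  have hdn : ∀ m, dn (lt' P) m.1 = dn (lt' Q) (eM m).1 := by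
    intro m
    have h1 := arcs_res (lt' P) m.1 m.2
    have h2 := arcs_res (lt' Q) (eM m).1 (eM m).2
    have h3 := arcs_iso (hM m)
    omega
  refine ⟨fun j => ?_, eE, hE, fun x => ?_⟩
  · rw [← Nat.card_coe_set_eq, ← Nat.card_coe_set_eq]
    refine Nat.card_congr ⟨fun w => ⟨(eM ⟨w.1, w.2.1⟩).1, (eM ⟨w.1, w.2.1⟩).2, ?_⟩,
      fun w => ⟨(eM.symm ⟨w.1, w.2.1⟩).1, (eM.symm ⟨w.1, w.2.1⟩).2, ?_⟩, ?_, ?_⟩
    · rw [← hdn ⟨w.1, w.2.1⟩]
      exact w.2.2
    · rw [hdn (eM.symm ⟨w.1, w.2.1⟩), Equiv.apply_symm_apply]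
      exact w.2.2
    · intro w
      refine Subtype.ext ?_
      show (eM.symm (eM ⟨w.1, w.2.1⟩)).1 = w.1
      rw [Equiv.symm_apply_apply]
    · intro w
      refine Subtype.ext ?_
      show (eM (eM.symm ⟨w.1, w.2.1⟩)).1 = w.1
      rw [Equiv.apply_symm_apply]
  · have h1 := arcs_del (lt' P) x.1
    have h2 := arcs_del (lt' Q) (eE x).1
    have h3 := arcs_iso (hE x)
    omega

omit [Finite P] in
lemma dn_eq_Iio (x : P) : dn (lt' P) x = (Set.Iio x).ncard := by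
  rw [← Nat.card_coe_set_eq]
  rfl

omit [Finite P] in
lemma up_eq_Ioi (x : P) : up (lt' P) x = (Set.Ioi x).ncard := by
  rw [← Nat.card_coe_set_eq]
  rfl

/-- **Ordered sets with at most two maximal elements.** -/
theorem iso_of_two_max (h2 : {m : P | IsMax m}.ncard ≤ 2) (h : SameDecks P Q) :
    Nonempty (P ≃o Q) := by
  obtain ⟨hdn, eE, hE, hup⟩ := h.data
  rw [iso_iff]
  refine two_sinks (sord P) (sord Q) hdn eE hE hup (card_of_sameDecks h) ?_
  have h3 : {v | Sink (lt' P) v} = {m : P | IsMax m} := by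
    ext v
    exact (isMax_iff v).symm
  rw [h3]
  exact h2

/-- **One card.** -/
theorem iso_of_card {x : P} (hx : ¬ IsMax x) (hU : ∀ y, x < y → IsMax y)
    (hA : ∀ z, IsMax z → ¬ x < z → (Set.Iio z).ncard = (Set.Iio x).ncard →
      Set.Iio z = Set.Iio x ∨
        {v | IsMax v ∧ v ≠ z ∧ Set.Iio z ⊆ Set.Iio v}.ncard < (Set.Ioi x).ncard)
    (hB : ∀ v v', x < v → IsMax v' → ¬ x < v' → Set.Iio x ⊆ Set.Iio v' →
      (Set.Iio v').ncard + 1 = (Set.Iio v).ncard → Set.Iio v' = Set.Iio v \ {x})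
    (h : SameDecks P Q) : Nonempty (P ≃o Q) := by
  obtain ⟨hdn, eE, hE, hup⟩ := h.data
  rw [iso_iff]
  have hx' : ¬ Sink (lt' P) x := fun hs => hx ((isMax_iff x).2 hs)
  obtain ⟨φ⟩ := hE ⟨x, hx'⟩
  refine single_card (sord P) (sord Q) hdn hx' (eE ⟨x, hx'⟩).2 φ (hup ⟨x, hx'⟩)
    (fun y hy => (isMax_iff y).1 (hU y hy)) ?_ ?_
  · intro z hz hxz hd
    rw [dn_eq_Iio, dn_eq_Iio] at hd
    rcases hA z ((isMax_iff z).2 hz) hxz hd with h1 | h1
    · left
      intro y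
      have h2 : y ∈ Set.Iio z ↔ y ∈ Set.Iio x := by rw [h1]
      exact h2
    · right
      rw [up_eq_Ioi]
      have h2 : {v | Sink (lt' P) v ∧ v ≠ z ∧ ∀ y, lt' P y z → lt' P y v} =
          {v | IsMax v ∧ v ≠ z ∧ Set.Iio z ⊆ Set.Iio v} := by
        ext v
        simp only [Set.mem_ofPred_eq, isMax_iff]
        rfl
      rw [h2]
      exact h1
  · intro v v' hv hv' hxv' hall hd y
    rw [dn_eq_Iio, dn_eq_Iio] at hd
    have h1 := hB v v' hv ((isMax_iff v').2 hv') hxv' hall hd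
    have h2 : y ∈ Set.Iio v' ↔ y ∈ Set.Iio v \ {x} := by rw [h1]
    exact h2

end Pool.Agent.H22K
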