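import Mathlib

/-!
The maximal deck, the enhanced deck and the deck of a finite ordered set.
-/

namespace Pool.Agent.H22K

universe u

/-- the ground set of the ordered set `(P, ≤ \ U(x))` -/
def Cut {P : Type u} (_x : P) : Type u := P

/-- The order of `(P, ≤ \ U(x))`: all comparabilities `x < p` are deleted, all other ones are
kept. -/
instance Cut.order {P : Type u} [PartialOrder P] (x : P) : PartialOrder (Cut x) where
  le := fun a b : P => a ≤ b ∧ (a = x → b = x)
  le_refl := fun (a : P) => ⟨@le_refl P _ a, id⟩
  le_trans := fun (a b c : P) h h' => ⟨@le_trans P _ a b c h.1 h'.1, fun e => h'.2 (h.2 e)⟩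
  le_antisymm := fun (a b : P) h h' => @le_antisymm P _ a b h.1 h'.1

/-- `MaxDeck P C` is the number of maximal elements `m` of `P` such that `P \ {m}` is isomorphic
to `C`. -/
noncomputable def MaxDeck (P : Type u) [PartialOrder P] (C : Type u) [PartialOrder C] : ℕ :=
  Nat.card {m : P // IsMax m ∧ Nonempty ({y : P // y ≠ m} ≃o C)}

/-- `EnhDeck P C` is the number of elements `x` of `P` which are not maximal such that
`(P, ≤ \ U(x))` is isomorphic to `C`. -/
noncomputable def EnhDeck (P : Type u) [PartialOrder P] (C : Type u) [PartialOrder C] : ℕ :=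
  Nat.card {x : P // ¬ IsMax x ∧ Nonempty (Cut x ≃o C)}

/-- `Deck P C` is the number of elements `x` of `P` such that `P \ {x}` is isomorphic to `C`. -/
noncomputable def Deck (P : Type u) [PartialOrder P] (C : Type u) [PartialOrder C] : ℕ :=
  Nat.card {x : P // Nonempty ({y : P // y ≠ x} ≃o C)}

/-- `Copies P C` is the number of subsets of `P` which, with the induced order, are isomorphic
to `C`. -/
noncomputable def Copies (P : Type u) [PartialOrder P] (C : Type u) [PartialOrder C] : ℕ :=
  Nat.card {S : Set P // Nonempty (S ≃o C)}

/-- `P` and `Q` have the same maximal deck and the same enhanced deck -/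
def SameDecks (P Q : Type u) [PartialOrder P] [PartialOrder Q] : Prop :=
  ∀ (C : Type u) [PartialOrder C] [Finite C], MaxDeck P C = MaxDeck Q C ∧
    EnhDeck P C = EnhDeck Q C

end Pool.Agent.H22K
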