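import Pool.Agent.H22K.Poset

/-!
Degrees: the number of arcs, and the numbers of predecessors and successors on the cards.
-/

namespace Pool.Agent.H22K

universe u

variable {V V' W : Type u}

/-- the number of arcs -/
noncomputable def arcs (r : V → V → Prop) : ℕ := Nat.card {p : V × V // r p.1 p.2}

/-- the number of predecessors -/
noncomputable def dn (r : V → V → Prop) (x : V) : ℕ := Nat.card {y // r y x}

/-- the number of successors -/
noncomputable def up (r : V → V → Prop) (x : V) : ℕ := Nat.card {y // r x y}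

lemma arcs_iso {r : V → V → Prop} {r' : V' → V' → Prop} (h : Nonempty (r ≃r r')) :
    arcs r = arcs r' := by
  obtain ⟨e⟩ := h
  refine Nat.card_congr ((Equiv.prodCongr e.toEquiv e.toEquiv).subtypeEquiv fun p => ?_)
  exact e.map_rel_iff.symm

lemma dn_iso {r : V → V → Prop} {r' : V' → V' → Prop} (e : r ≃r r') (x : V) :
    dn r' (e x) = dn r x :=
  (Nat.card_congr (e.toEquiv.subtypeEquiv fun y => (e.map_rel_iff (a := y) (b := x)).symm)).symm

lemma up_pos [Finite V] {r : V → V → Prop} {x : V} (hx : ¬ Sink r x) : 0 < up r x := by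
  unfold Sink at hx
  push Not at hx
  obtain ⟨y, hy⟩ := hx
  have : Nonempty {y // r x y} := ⟨⟨y, hy⟩⟩
  exact Nat.card_pos

/-- deleting the arcs which leave `x` -/
lemma arcs_del [Finite V] (r : V → V → Prop) (x : V) : arcs (del r x) + up r x = arcs r := by
  classical
  have h1 : Nat.card {p : V × V // r p.1 p.2 ∧ p.1 = x} = up r x :=
    Nat.card_congr ⟨fun p => ⟨p.1.2, by have := p.2.1; rwa [p.2.2] at this⟩,
      fun y => ⟨(x, y.1), y.2, rfl⟩, fun p => Subtype.ext (Prod.ext p.2.2.symm rfl),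
      fun _ => rfl⟩
  have h2 : Nat.card {p : V × V // r p.1 p.2 ∧ ¬ p.1 = x} = arcs (del r x) := rfl
  have h3 : ∀ (P Q : V × V → Prop), Nat.card {x // P x} =
      Nat.card {x // P x ∧ Q x} + Nat.card {x // P x ∧ ¬ Q x} := by
    intro P Q
    have : Fintype V := Fintype.ofFinite V
    simp only [Nat.card_eq_fintype_card, Fintype.card_subtype]
    rw [← Finset.filter_filter, ← Finset.filter_filter]
    exact (Finset.card_filter_add_card_filter_not _).symm
  have h4 := h3 (fun p => r p.1 p.2) (fun p => p.1 = x)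
  have h5 : Nat.card {p : V × V // r p.1 p.2} = arcs r := rfl
  omega

/-- deleting a sink -/
lemma arcs_res [Finite V] (r : V → V → Prop) (x : V) (hx : Sink r x) :
    arcs (res r {v | v ≠ x}) + dn r x = arcs r := by
  classical
  have h1 : Nat.card {p : V × V // r p.1 p.2 ∧ p.2 = x} = dn r x :=
    Nat.card_congr ⟨fun p => ⟨p.1.1, by have := p.2.1; rwa [p.2.2] at this⟩,
      fun y => ⟨(y.1, x), y.2, rfl⟩, fun p => Subtype.ext (Prod.ext rfl p.2.2.symm),
      fun _ => rfl⟩
  have h2 : Nat.card {p : V × V // r p.1 p.2 ∧ ¬ p.2 = x} = arcs (res r {v | v ≠ x}) := by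
    refine Nat.card_congr ⟨fun p => ⟨(⟨p.1.1, ?_⟩, ⟨p.1.2, p.2.2⟩), p.2.1⟩,
      fun p => ⟨(p.1.1.1, p.1.2.1), p.2, p.1.2.2⟩, fun _ => rfl, fun _ => rfl⟩
    intro h
    have h' : r p.1.1 p.1.2 := p.2.1
    rw [show p.1.1 = x from h] at h'
    exact hx p.1.2 h'
  have h3 : ∀ (P Q : V × V → Prop), Nat.card {x // P x} =
      Nat.card {x // P x ∧ Q x} + Nat.card {x // P x ∧ ¬ Q x} := by
    intro P Q
    have : Fintype V := Fintype.ofFinite V
    simp only [Nat.card_eq_fintype_card, Fintype.card_subtype]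
    rw [← Finset.filter_filter, ← Finset.filter_filter]
    exact (Finset.card_filter_add_card_filter_not _).symm
  have h4 := h3 (fun p => r p.1 p.2) (fun p => p.2 = x)
  have h5 : Nat.card {p : V × V // r p.1 p.2} = arcs r := rfl
  omega

/-- the sum of the numbers of successors -/
lemma sum_up [Fintype V] (r : V → V → Prop) [Fintype {x // ¬ Sink r x}] :
    ∑ x : {x // ¬ Sink r x}, up r x.1 = arcs r := by
  classical
  have h1 : ∑ x : {x // ¬ Sink r x}, up r x.1 =
      Nat.card (Σ x : {x // ¬ Sink r x}, {y // r x.1 y}) := by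
    rw [Nat.card_sigma]
    rfl
  rw [h1]
  refine Nat.card_congr ⟨fun p => ⟨(p.1.1, p.2.1), p.2.2⟩,
    fun p => ⟨⟨p.1.1, fun h => h _ p.2⟩, ⟨p.1.2, p.2⟩⟩, fun _ => rfl, fun _ => rfl⟩

/-- the sum of the numbers of predecessors of the sinks, if there is only one vertex which is not
a sink -/
lemma sum_dn [Fintype V] (r : V → V → Prop) (hirr : ∀ x, ¬ r x x) (h1 : nn r = 1)
    [Fintype {x // Sink r x}] : ∑ x : {x // Sink r x}, dn r x.1 = arcs r := by
  classical
  have h2 : ∀ x y, r x y → Sink r y := by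
    intro x y hxy
    by_contra hy
    have hx : ¬ Sink r x := fun h => h y hxy
    have h3 : Nat.card {x // ¬ Sink r x} = 1 := h1
    rw [Nat.card_eq_one_iff_unique] at h3
    have h4 : (⟨x, hx⟩ : {x // ¬ Sink r x}) = ⟨y, hy⟩ := h3.1.elim _ _
    have h5 : x = y := congrArg Subtype.val h4
    exact hirr x (by rwa [← h5] at hxy)
  have h3 : ∑ x : {x // Sink r x}, dn r x.1 =
      Nat.card (Σ x : {x // Sink r x}, {y // r y x.1}) := by
    rw [Nat.card_sigma]
    rfl
  rw [h3]
  exact Nat.card_congr ⟨fun p => ⟨(p.2.1, p.1.1), p.2.2⟩,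
    fun p => ⟨⟨p.1.2, h2 _ _ p.2⟩, ⟨p.1.1, p.2⟩⟩, fun _ => rfl, fun _ => rfl⟩

/-- the two decks determine the number of arcs -/
theorem arcs_eq [Finite V] [Finite V'] (r : V → V → Prop) (r' : V' → V' → Prop)
    (hirr : ∀ x, ¬ r x x) (hirr' : ∀ x, ¬ r' x x)
    (eM : {m // Sink r m} ≃ {m // Sink r' m})
    (hM : ∀ m, Nonempty (res r {v | v ≠ m.1} ≃r res r' {v | v ≠ (eM m).1}))
    (eE : {x // ¬ Sink r x} ≃ {x // ¬ Sink r' x})
    (hE : ∀ x, Nonempty (del r x.1 ≃r del r' (eE x).1)) : arcs r = arcs r' := by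
  classical
  have : Fintype V := Fintype.ofFinite V
  have : Fintype V' := Fintype.ofFinite V'
  have hk : nn r = nn r' := Nat.card_congr eE
  have key : ∀ {U : Type u} [Fintype U] (s : U → U → Prop),
      ∑ x : {x // ¬ Sink s x}, arcs (del s x.1) + arcs s = nn s * arcs s := by
    intro U _ s
    have h1 : ∑ x : {x // ¬ Sink s x}, (arcs (del s x.1) + up s x.1) =
        ∑ _x : {x // ¬ Sink s x}, arcs s := Finset.sum_congr rfl fun x _ => arcs_del s x.1
    rw [Finset.sum_add_distrib, sum_up, Finset.sum_const, smul_eq_mul, Finset.card_univ,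
      ← Nat.card_eq_fintype_card] at h1
    exact h1
  have h1 := key r
  have h2 := key r'
  have h3 : ∑ x : {x // ¬ Sink r x}, arcs (del r x.1) = ∑ x : {x // ¬ Sink r' x},
      arcs (del r' x.1) := Fintype.sum_equiv eE _ _ fun x => arcs_iso (hE x)
  rw [h3] at h1
  rw [hk] at h1
  rcases Nat.lt_trichotomy (nn r') 1 with h0 | h0 | h0
  · have h4 : nn r' = 0 := by omega
    rw [h4] at h1 h2
    omega
  · have key2 : ∀ {U : Type u} [Fintype U] (s : U → U → Prop), (∀ x, ¬ s x x) → nn s = 1 →
        ∑ x : {x // Sink s x}, arcs (res s {v | v ≠ x.1}) + arcs s =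
          Nat.card {x // Sink s x} * arcs s := by
      intro U _ s hs hs1
      have h1 : ∑ x : {x // Sink s x}, (arcs (res s {v | v ≠ x.1}) + dn s x.1) =
          ∑ _x : {x // Sink s x}, arcs s := Finset.sum_congr rfl fun x _ => arcs_res s x.1 x.2
      rw [Finset.sum_add_distrib, sum_dn s hs hs1, Finset.sum_const, smul_eq_mul,
        Finset.card_univ, ← Nat.card_eq_fintype_card] at h1
      exact h1
    have h4 := key2 r hirr (hk.trans h0)
    have h5 := key2 r' hirr' h0
    have h6 : ∑ x : {x // Sink r x}, arcs (res r {v | v ≠ x.1}) =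
        ∑ x : {x // Sink r' x}, arcs (res r' {v | v ≠ x.1}) :=
      Fintype.sum_equiv eM _ _ fun x => arcs_iso (hM x)
    have h7 : Nat.card {x // Sink r x} = Nat.card {x // Sink r' x} := Nat.card_congr eM
    rw [h6, h7] at h4
    rcases Nat.lt_trichotomy (Nat.card {x // Sink r' x}) 1 with h8 | h8 | h8
    · have h9 : Nat.card {x // Sink r' x} = 0 := by omega
      rw [h9] at h4 h5
      omega
    · -- one sink and one other vertex: one arc
      have key3 : ∀ {U : Type u} [Fintype U] (s : U → U → Prop), (∀ x, ¬ s x x) → nn s = 1 →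
          Nat.card {x // Sink s x} = 1 → arcs s = 1 := by
        intro U _ s hs hs1 hs2
        rw [← sum_up]
        have h3 : Nat.card {x // ¬ Sink s x} = 1 := hs1
        obtain ⟨h4, ⟨x⟩⟩ := Nat.card_eq_one_iff_unique.1 h3
        have h5 : ∀ y, y = x := fun y => h4.elim _ _
        rw [Fintype.sum_eq_single x (fun y hy => absurd (h5 y) hy)]
        have h6 := up_pos x.2
        have h7 : up s x.1 ≤ Nat.card {x // Sink s x} := by
          refine Nat.card_le_card_of_injective (fun y : {y // s x.1 y} =>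
            (⟨y.1, ?_⟩ : {x // Sink s x})) ?_
          · by_contra hy
            have h8 := congrArg Subtype.val (h5 ⟨y.1, hy⟩)
            have h9 : y.1 = x.1 := h8
            have h10 : s x.1 y.1 := y.2
            rw [h9] at h10
            exact hs x.1 h10
          · intro y y' h
            exact Subtype.ext (congrArg (fun z : {x // Sink s x} => z.1) h)
        omega
      rw [key3 r hirr (hk.trans h0) (h7.trans h8), key3 r' hirr' h0 h8]
    · obtain ⟨c, hc⟩ : ∃ c, Nat.card {x // Sink r' x} = c + 2 := ⟨_, (Nat.sub_add_cancel h8).symm⟩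
      rw [hc] at h4 h5
      have h9 : (c + 1) * arcs r = (c + 1) * arcs r' := by nlinarith
      exact Nat.eq_of_mul_eq_mul_left (by omega) h9
  · obtain ⟨c, hc⟩ : ∃ c, nn r' = c + 2 := ⟨_, (Nat.sub_add_cancel h0).symm⟩
    rw [hc] at h1 h2
    have h9 : (c + 1) * arcs r = (c + 1) * arcs r' := by nlinarith
    exact Nat.eq_of_mul_eq_mul_left (by omega) h9

end Pool.Agent.H22K
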