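import Pool.Agent.H22K.Degree

/-!
Disconnected relations are determined by the numbers of copies of smaller relations.
-/

namespace Pool.Agent.H22K

open SimpleGraph

universe u

variable {V V' W : Type u}

/-- `r` is connected -/
def Cn (r : V → V → Prop) : Prop := (SimpleGraph.fromRel r).Connected

lemma fromRel_res (r : V → V → Prop) (S : Set V) :
    SimpleGraph.fromRel (res r S) = (SimpleGraph.fromRel r).induce S := by
  ext a b
  simp only [SimpleGraph.fromRel_adj, SimpleGraph.comap_adj, Function.Embedding.subtype_apply,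
    ne_eq, Subtype.ext_iff]
  rfl

/-- an isomorphism of relations gives one of graphs -/
def graphIso {r : V → V → Prop} {r' : V' → V' → Prop} (e : r ≃r r') :
    SimpleGraph.fromRel r ≃g SimpleGraph.fromRel r' where
  toEquiv := e.toEquiv
  map_rel_iff' := by
    intro a b
    simp only [SimpleGraph.fromRel_adj]
    show e a ≠ e b ∧ (r' (e a) (e b) ∨ r' (e b) (e a)) ↔ a ≠ b ∧ (r a b ∨ r b a)
    rw [e.map_rel_iff, e.map_rel_iff, e.injective.ne_iff]

lemma cn_iso {r : V → V → Prop} {r' : V' → V' → Prop} (h : Nonempty (r ≃r r')) :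
    Cn r ↔ Cn r' := by
  obtain ⟨e⟩ := h
  exact (graphIso e).connected_iff

/-- the components -/
abbrev Comp (r : V → V → Prop) : Type u := (SimpleGraph.fromRel r).ConnectedComponent

lemma cn_supp (r : V → V → Prop) (K : Comp r) : Cn (res r K.supp) := by
  unfold Cn
  rw [fromRel_res]
  exact K.connected_toSimpleGraph

lemma exists_comp (r : V → V → Prop) (S : Set V) (h : Cn (res r S)) : ∃ K : Comp r,
    S ⊆ K.supp := by
  unfold Cn at h
  rw [fromRel_res] at h
  obtain ⟨a⟩ := h.nonempty
  refine ⟨(SimpleGraph.fromRel r).connectedComponentMk a.1, fun b hb => ?_⟩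
  rw [SimpleGraph.ConnectedComponent.mem_supp_iff, SimpleGraph.ConnectedComponent.eq]
  exact (h.preconnected ⟨b, hb⟩ a).map (SimpleGraph.Embedding.induce S).toHom

/-- the number of components isomorphic to `q` -/
noncomputable def nc (r : V → V → Prop) (q : W → W → Prop) : ℕ :=
  Nat.card {K : Comp r // Nonempty (res r K.supp ≃r q)}

/-- the copies of a connected relation lie in the components -/
lemma subs_comp [Finite V] (r : V → V → Prop) (q : W → W → Prop) (hq : Cn q)
    [Fintype (Comp r)] : subs r q = ∑ K : Comp r, subs (res r K.supp) q := by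
  simp only [subs_res]
  rw [← Nat.card_sigma]
  refine Nat.card_congr (Equiv.ofBijective
    (fun S : {S : Set V // Nonempty (res r S ≃r q)} =>
      (⟨(exists_comp r S.1 ((cn_iso S.2).2 hq)).choose, ⟨S.1,
        (exists_comp r S.1 ((cn_iso S.2).2 hq)).choose_spec, S.2⟩⟩ :
          Σ K : Comp r, {S : Set V // S ⊆ K.supp ∧ Nonempty (res r S ≃r q)})) ⟨?_, ?_⟩)
  · intro S S' h
    have h1 : ∀ {K K' : Comp r} {a : {S : Set V // S ⊆ K.supp ∧ Nonempty (res r S ≃r q)}}
        {a' : {S : Set V // S ⊆ K'.supp ∧ Nonempty (res r S ≃r q)}},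
        (⟨K, a⟩ : Σ K : Comp r, {S : Set V // S ⊆ K.supp ∧ Nonempty (res r S ≃r q)}) =
          ⟨K', a'⟩ → a.1 = a'.1 := by
      rintro K K' a a' h
      cases h
      rfl
    exact Subtype.ext (h1 h)
  · rintro ⟨K, ⟨S, hS, hiso⟩⟩
    refine ⟨⟨S, hiso⟩, ?_⟩
    have h1 : (exists_comp r S ((cn_iso hiso).2 hq)).choose = K := by
      have h2 := (exists_comp r S ((cn_iso hiso).2 hq)).choose_spec
      have h3 : S.Nonempty := by
        obtain ⟨a⟩ := ((cn_iso hiso).2 hq).nonempty
        exact ⟨a.1, a.2⟩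
      obtain ⟨a, ha⟩ := h3
      exact SimpleGraph.ConnectedComponent.eq_of_common_vertex (h2 ha) (hS ha)
    have h4 : ∀ {K' : Comp r} (hK : K' = K) (h : S ⊆ K'.supp),
        (⟨K', ⟨S, h, hiso⟩⟩ : Σ K : Comp r, {S : Set V // S ⊆ K.supp ∧
          Nonempty (res r S ≃r q)}) = ⟨K, ⟨S, hS, hiso⟩⟩ := by
      rintro K' rfl h
      rfl
    exact h4 h1 (exists_comp r S ((cn_iso hiso).2 hq)).choose_spec

/-- copies of relations of the same size or of a larger size -/
lemma subs_same [Finite V] [Finite W] (r : V → V → Prop) (q : W → W → Prop)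
    (h : Nat.card V = Nat.card W) [Decidable (Nonempty (r ≃r q))] :
    subs r q = if Nonempty (r ≃r q) then 1 else 0 := by
  have key : ∀ S : Set V, Nonempty (res r S ≃r q) → S = Set.univ := by
    rintro S ⟨e⟩
    have h1 : S.ncard = Nat.card W := by
      rw [← Nat.card_coe_set_eq]
      exact Nat.card_congr e.toEquiv
    refine Set.eq_of_subset_of_ncard_le (Set.subset_univ S) ?_
    rw [Set.ncard_univ, h1, h]
  have huniv : Nonempty (res r Set.univ ≃r r) :=
    ⟨⟨Equiv.Set.univ V, fun {a b} => Iff.rfl⟩⟩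
  split_ifs with hiso
  · rw [subs, Nat.card_eq_one_iff_unique]
    refine ⟨⟨fun a b => Subtype.ext ((key _ a.2).trans (key _ b.2).symm)⟩,
      ⟨⟨Set.univ, ?_⟩⟩⟩
    obtain ⟨e⟩ := huniv
    obtain ⟨f⟩ := hiso
    exact ⟨e.trans f⟩
  · have : IsEmpty {S : Set V // Nonempty (res r S ≃r q)} := by
      refine ⟨?_⟩
      rintro ⟨S, hS⟩
      have h1 := key S hS
      subst h1
      obtain ⟨e⟩ := huniv
      obtain ⟨f⟩ := hS
      exact hiso ⟨e.symm.trans f⟩
    exact Nat.card_of_isEmpty

lemma subs_large [Finite V] (r : V → V → Prop) (q : W → W → Prop)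
    (h : Nat.card V < Nat.card W) : subs r q = 0 := by
  have : IsEmpty {S : Set V // Nonempty (res r S ≃r q)} := by
    refine ⟨?_⟩
    rintro ⟨S, ⟨e⟩⟩
    have h1 : S.ncard = Nat.card W := by
      rw [← Nat.card_coe_set_eq]
      exact Nat.card_congr e.toEquiv
    have h2 := Set.ncard_le_card S
    omega
  exact Nat.card_of_isEmpty

/-- the components of a disconnected relation are smaller -/
lemma supp_lt [Finite V] {r : V → V → Prop} (hd : ¬ Cn r) (K : Comp r) :
    Nat.card K.supp < Nat.card V := by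
  by_contra hcon
  push Not at hcon
  have h1 : K.supp = Set.univ := by
    refine Set.eq_of_subset_of_ncard_le (Set.subset_univ _) ?_
    rw [Set.ncard_univ, ← Nat.card_coe_set_eq]
    exact hcon
  apply hd
  have h2 := cn_supp r K
  refine (cn_iso ?_).1 h2
  rw [h1]
  exact ⟨⟨Equiv.Set.univ V, fun {a b} => Iff.rfl⟩⟩

/-- the numbers of components of each kind agree -/
theorem nc_eq [Finite V] [Finite V'] {r : V → V → Prop} {r' : V' → V' → Prop}
    (hd : ¬ Cn r) (hd' : ¬ Cn r') (hcard : Nat.card V = Nat.card V')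
    (hs : ∀ (W : Type u) [Finite W] (q : W → W → Prop), Nat.card W < Nat.card V →
      subs r q = subs r' q) :
    ∀ (d : ℕ) (W : Type u) [Finite W] (q : W → W → Prop), Cn q → Nat.card V ≤ Nat.card W + d →
      nc r q = nc r' q := by
  classical
  have : Fintype (Comp r) := Fintype.ofFinite _
  have : Fintype (Comp r') := Fintype.ofFinite _
  intro d
  induction d using Nat.strong_induction_on with
  | _ d ih =>
  intro W _ q hq hW
  by_cases hWn : Nat.card V ≤ Nat.card W
  · have key : ∀ {U : Type u} [Finite U] (s : U → U → Prop), ¬ Cn s →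
        Nat.card U ≤ Nat.card W → nc s q = 0 := by
      intro U _ s hsd hU
      have : IsEmpty {K : Comp s // Nonempty (res s K.supp ≃r q)} := by
        refine ⟨?_⟩
        rintro ⟨K, ⟨e⟩⟩
        have h1 := supp_lt hsd K
        have h2 : Nat.card K.supp = Nat.card W := Nat.card_congr e.toEquiv
        omega
      exact Nat.card_of_isEmpty
    rw [key r hd hWn, key r' hd' (hcard ▸ hWn)]
  push Not at hWn
  have h1 := hs W q hWn
  rw [subs_comp r q hq, subs_comp r' q hq] at h1
  -- splitting the sum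
  have hsplit : ∀ {U : Type u} [Finite U] (s : U → U → Prop) [Fintype (Comp s)],
      ∑ K : Comp s, subs (res s K.supp) q = nc s q +
        ∑ K : {K : Comp s // Nat.card W < Nat.card K.supp}, subs (res s K.1.supp) q := by
    intro U _ s _
    have h2 : ∑ K : Comp s, subs (res s K.supp) q =
        ∑ K : Comp s, ((if Nonempty (res s K.supp ≃r q) then 1 else 0) +
          (if Nat.card W < Nat.card K.supp then subs (res s K.supp) q else 0)) := by
      refine Finset.sum_congr rfl fun K _ => ?_
      rcases Nat.lt_trichotomy (Nat.card K.supp) (Nat.card W) with h | h | h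
      · rw [subs_large _ q h, if_neg, if_neg (by omega)]
        rintro ⟨e⟩
        have := Nat.card_congr e.toEquiv
        omega
      · rw [subs_same _ q h, if_neg (c := Nat.card W < Nat.card K.supp) (by omega), add_zero]
      · rw [if_pos h, if_neg, zero_add]
        rintro ⟨e⟩
        have := Nat.card_congr e.toEquiv
        omega
    rw [h2, Finset.sum_add_distrib]
    congr 1
    · rw [nc, Nat.card_eq_fintype_card, Fintype.card_subtype, Finset.card_filter]
    · rw [← Finset.sum_filter]
      exact Finset.sum_subtype _ (fun K => by simp only [Finset.mem_filter, Finset.mem_univ,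
        true_and]) fun K : Comp s => subs (res s K.supp) q
  rw [hsplit r, hsplit r'] at h1
  have h2 : ∑ K : {K : Comp r // Nat.card W < Nat.card K.supp}, subs (res r K.1.supp) q =
      ∑ K : {K : Comp r' // Nat.card W < Nat.card K.supp}, subs (res r' K.1.supp) q := by
    refine sum_eq_of_fibers (fun K => code (res r K.1.supp)) (fun K => code (res r' K.1.supp))
      ?_ _ _ (fun K K' h => subs_iso ((code_eq_iff _ _).1 h) q)
    have h6 : ∀ {U : Type u} [Finite U] (s : U → U → Prop) {Y : Type u} [Finite Y]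
        (y : Y → Y → Prop), Nat.card W < Nat.card Y →
        Nat.card {K : {K : Comp s // Nat.card W < Nat.card K.supp} //
          code (res s K.1.supp) = code y} = nc s y := by
      intro U _ s Y _ y hy
      refine Nat.card_congr ⟨fun K => ⟨K.1.1, (code_eq_iff _ _).1 K.2⟩,
        fun K => ⟨⟨K.1, ?_⟩, (code_eq_iff _ _).2 K.2⟩, fun _ => rfl, fun _ => rfl⟩
      obtain ⟨e⟩ := K.2
      rw [Nat.card_congr e.toEquiv]
      exact hy
    intro c
    by_cases hc : ∃ K : {K : Comp r // Nat.card W < Nat.card K.supp},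
        code (res r K.1.supp) = c
    · obtain ⟨K, rfl⟩ := hc
      rw [h6 r (res r K.1.supp) K.2, h6 r' (res r K.1.supp) K.2]
      have hlt := K.2
      exact ih (Nat.card V - Nat.card K.1.supp) (by omega) K.1.supp _ (cn_supp r K.1) (by omega)
    · by_cases hc' : ∃ K : {K : Comp r' // Nat.card W < Nat.card K.supp},
          code (res r' K.1.supp) = c
      · obtain ⟨K, rfl⟩ := hc'
        rw [h6 r (res r' K.1.supp) K.2, h6 r' (res r' K.1.supp) K.2]
        have hlt := K.2
        exact ih (Nat.card V - Nat.card K.1.supp) (by omega) K.1.supp _ (cn_supp r' K.1)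
          (by omega)
      · push Not at hc hc'
        have i1 : IsEmpty {K : {K : Comp r // Nat.card W < Nat.card K.supp} //
            code (res r K.1.supp) = c} := ⟨fun K => hc K.1 K.2⟩
        have i2 : IsEmpty {K : {K : Comp r' // Nat.card W < Nat.card K.supp} //
            code (res r' K.1.supp) = c} := ⟨fun K => hc' K.1 K.2⟩
        rw [Nat.card_of_isEmpty, Nat.card_of_isEmpty]
  omega

/-- gluing the isomorphisms of the components -/
theorem iso_of_comps {r : V → V → Prop} {r' : V' → V' → Prop} (hirr : ∀ x, ¬ r x x)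
    (hirr' : ∀ x, ¬ r' x x) (e : Comp r ≃ Comp r')
    (he : ∀ K, Nonempty (res r K.supp ≃r res r' (e K).supp)) : Nonempty (r ≃r r') := by
  classical
  let ι : ∀ K : Comp r, res r K.supp ≃r res r' (e K).supp := fun K => Classical.choice (he K)
  let mk := (SimpleGraph.fromRel r).connectedComponentMk
  let mk' := (SimpleGraph.fromRel r').connectedComponentMk
  let θ : V → V' := fun v => (ι (mk v) ⟨v, rfl⟩).1
  have hθ : ∀ (K : Comp r) (v : V) (hv : v ∈ K.supp), θ v = (ι K ⟨v, hv⟩).1 := by
    intro K v hv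
    have h1 : mk v = K := hv
    subst h1
    rfl
  have hmk : ∀ v, mk' (θ v) = e (mk v) := fun v => (ι (mk v) ⟨v, rfl⟩).2
  have hadj : ∀ a b, r a b → mk a = mk b := by
    intro a b h
    refine SimpleGraph.ConnectedComponent.sound (SimpleGraph.Adj.reachable ?_)
    rw [SimpleGraph.fromRel_adj]
    exact ⟨by rintro rfl; exact hirr _ h, Or.inl h⟩
  have hadj' : ∀ a b, r' a b → mk' a = mk' b := by
    intro a b h
    refine SimpleGraph.ConnectedComponent.sound (SimpleGraph.Adj.reachable ?_)
    rw [SimpleGraph.fromRel_adj]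
    exact ⟨by rintro rfl; exact hirr' _ h, Or.inl h⟩
  have hbij : Function.Bijective θ := by
    constructor
    · intro a b hab
      have h1 : mk a = mk b := by
        apply e.injective
        rw [← hmk, ← hmk, hab]
      have ha : a ∈ (mk b).supp := h1
      have hb : b ∈ (mk b).supp := rfl
      rw [hθ (mk b) a ha, hθ (mk b) b hb] at hab
      have h2 := (ι (mk b)).injective (Subtype.ext hab)
      exact congrArg Subtype.val h2
    · intro w
      obtain ⟨K, hK⟩ := e.surjective (mk' w)
      have hw : w ∈ (e K).supp := hK.symm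
      obtain ⟨v, hv⟩ := (ι K).surjective ⟨w, hw⟩
      refine ⟨v.1, ?_⟩
      rw [hθ K v.1 v.2]
      exact congrArg Subtype.val hv
  refine ⟨⟨Equiv.ofBijective θ hbij, ?_⟩⟩
  intro a b
  show r' (θ a) (θ b) ↔ r a b
  by_cases hab : mk a = mk b
  · have ha : a ∈ (mk b).supp := hab
    have hb : b ∈ (mk b).supp := rfl
    rw [hθ (mk b) a ha, hθ (mk b) b hb]
    exact (ι (mk b)).map_rel_iff (a := ⟨a, ha⟩) (b := ⟨b, hb⟩)
  · constructor
    · intro h
      have h1 := hadj' _ _ h
      rw [hmk, hmk] at h1
      exact absurd (e.injective h1) hab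
    · intro h
      exact absurd (hadj a b h) hab

/-- disconnected relations are determined by the numbers of copies -/
theorem iso_of_disconnected [Finite V] [Finite V'] {r : V → V → Prop} {r' : V' → V' → Prop}
    (hirr : ∀ x, ¬ r x x) (hirr' : ∀ x, ¬ r' x x) (hd : ¬ Cn r) (hd' : ¬ Cn r')
    (hcard : Nat.card V = Nat.card V')
    (hs : ∀ (W : Type u) [Finite W] (q : W → W → Prop), Nat.card W < Nat.card V →
      subs r q = subs r' q) : Nonempty (r ≃r r') := by
  have key := nc_eq hd hd' hcard hs
  have h6 : ∀ {U : Type u} [Finite U] (s : U → U → Prop) {Y : Type u} [Finite Y]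
      (y : Y → Y → Prop), Nat.card {K : Comp s // code (res s K.supp) = code y} = nc s y := by
    intro U _ s Y _ y
    exact Nat.card_congr (Equiv.subtypeEquivRight fun K => code_eq_iff _ _)
  obtain ⟨e, he⟩ := exists_equiv_of_fibers (fun K : Comp r => code (res r K.supp))
    (fun K : Comp r' => code (res r' K.supp)) (by
      intro c
      by_cases hc : ∃ K : Comp r, code (res r K.supp) = c
      · obtain ⟨K, rfl⟩ := hc
        rw [h6 r (res r K.supp), h6 r' (res r K.supp)]
        exact key (Nat.card V) K.supp _ (cn_supp r K) (by omega)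
      · by_cases hc' : ∃ K : Comp r', code (res r' K.supp) = c
        · obtain ⟨K, rfl⟩ := hc'
          rw [h6 r (res r' K.supp), h6 r' (res r' K.supp)]
          exact key (Nat.card V) K.supp _ (cn_supp r' K) (by omega)
        · push Not at hc hc'
          have i1 : IsEmpty {K : Comp r // code (res r K.supp) = c} := ⟨fun K => hc K.1 K.2⟩
          have i2 : IsEmpty {K : Comp r' // code (res r' K.supp) = c} := ⟨fun K => hc' K.1 K.2⟩
          rw [Nat.card_of_isEmpty, Nat.card_of_isEmpty])
  exact iso_of_comps hirr hirr' e fun K => (code_eq_iff _ _).1 (he K).symm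

/-- arcs after deleting an arbitrary vertex -/
lemma arcs_res_lt [Finite V] (r : V → V → Prop) (S : Set V) (a b : V) (hab : r a b)
    (h : ¬ (a ∈ S ∧ b ∈ S)) : arcs (res r S) < arcs r := by
  have h1 : (fun p : {p : S × S // res r S p.1 p.2} =>
      (⟨(p.1.1.1, p.1.2.1), p.2⟩ : {p : V × V // r p.1 p.2})).Injective := by
    intro p p' hpp
    have h2 : (p.1.1.1, p.1.2.1) = (p'.1.1.1, p'.1.2.1) :=
      congrArg (fun z : {p : V × V // r p.1 p.2} => z.1) hpp
    rw [Prod.mk.injEq] at h2
    exact Subtype.ext (Prod.ext (Subtype.ext h2.1) (Subtype.ext h2.2))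
  have h3 := Nat.card_le_card_of_injective _ h1
  refine lt_of_le_of_ne h3 fun heq => ?_
  have h4 : (fun p : {p : S × S // res r S p.1 p.2} =>
      (⟨(p.1.1.1, p.1.2.1), p.2⟩ : {p : V × V // r p.1 p.2})).Surjective := by
    have h5 := (Nat.bijective_iff_injective_and_card _).2 ⟨h1, heq⟩
    exact h5.2
  obtain ⟨p, hp⟩ := h4 ⟨(a, b), hab⟩
  have h2 : (p.1.1.1, p.1.2.1) = (a, b) :=
    congrArg (fun z : {p : V × V // r p.1 p.2} => z.1) hp
  rw [Prod.mk.injEq] at h2
  exact h ⟨h2.1 ▸ p.1.1.2, h2.2 ▸ p.1.2.2⟩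

/-- connectedness is recognized -/
theorem not_cn_of [Finite V] [Finite V'] {r : V → V → Prop} {r' : V' → V' → Prop}
    (hirr : ∀ x, ¬ r x x) (hd : ¬ Cn r) (hne : Nonempty V) (hcard : Nat.card V = Nat.card V')
    (harcs : arcs r = arcs r')
    (hs : ∀ (W : Type u) [Finite W] (q : W → W → Prop), Nat.card W < Nat.card V →
      subs r q = subs r' q) : ¬ Cn r' := by
  classical
  intro hc
  -- there are at least two vertices
  have h2 : Nontrivial V := by
    by_contra hcon
    rw [not_nontrivial_iff_subsingleton] at hcon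
    apply hd
    exact ⟨fun a b => by rw [Subsingleton.elim a b]⟩
  have h2' : Nontrivial V' := by
    rw [← Finite.one_lt_card_iff_nontrivial] at h2 ⊢
    omega
  obtain ⟨x', hx'⟩ := hc.exists_connected_induce_compl_singleton_of_finite_nontrivial
  have hq : Cn (res r' ({x'}ᶜ : Set V')) := by
    unfold Cn
    rw [fromRel_res]
    exact hx'
  have hsz : Nat.card ({x'}ᶜ : Set V') + 1 = Nat.card V := by
    have h3 := Set.ncard_add_ncard_compl ({x'} : Set V')
    rw [Set.ncard_singleton] at h3
    rw [Nat.card_coe_set_eq, hcard]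
    omega
  -- an arc at `x'`
  obtain ⟨y', hy'⟩ : ∃ y', (SimpleGraph.fromRel r').Adj x' y' := by
    obtain ⟨w, hw⟩ := exists_ne x'
    obtain ⟨p⟩ := hc.preconnected x' w
    cases p with
    | nil => exact absurd rfl hw
    | cons h _ => exact ⟨_, h⟩
  have hlt : arcs (res r' ({x'}ᶜ : Set V')) < arcs r' := by
    rw [SimpleGraph.fromRel_adj] at hy'
    rcases hy'.2 with h | h
    · exact arcs_res_lt r' _ x' y' h fun h' => h'.1 rfl
    · exact arcs_res_lt r' _ y' x' h fun h' => h'.2 rfl
  have h3 := hs ({x'}ᶜ : Set V') (res r' ({x'}ᶜ : Set V')) (by omega)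
  have h4 : 0 < subs r' (res r' ({x'}ᶜ : Set V')) := by
    have : Nonempty {S : Set V' // Nonempty (res r' S ≃r res r' ({x'}ᶜ : Set V'))} :=
      ⟨⟨{x'}ᶜ, ⟨RelIso.refl _⟩⟩⟩
    exact Nat.card_pos
  rw [← h3] at h4
  obtain ⟨⟨S, hS⟩⟩ : Nonempty {S : Set V // Nonempty (res r S ≃r res r' ({x'}ᶜ : Set V'))} := by
    by_contra hcon
    rw [not_nonempty_iff] at hcon
    have h5 : subs r (res r' ({x'}ᶜ : Set V')) = 0 := Nat.card_of_isEmpty
    omega
  have hScn : Cn (res r S) := (cn_iso hS).2 hq
  have hSsz : Nat.card S + 1 = Nat.card V := by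
    obtain ⟨e⟩ := hS
    rw [Nat.card_congr e.toEquiv, hsz]
  have hSarcs : arcs (res r S) < arcs r := by
    rw [arcs_iso hS, harcs]
    exact hlt
  -- there is an arc which does not lie inside `S`
  obtain ⟨a, b, hab, hnS⟩ : ∃ a b, r a b ∧ ¬ (a ∈ S ∧ b ∈ S) := by
    by_contra hcon
    push Not at hcon
    have h5 : arcs r ≤ arcs (res r S) := by
      refine Nat.card_le_card_of_injective (fun p : {p : V × V // r p.1 p.2} =>
        (⟨(⟨p.1.1, (hcon _ _ p.2).1⟩, ⟨p.1.2, (hcon _ _ p.2).2⟩), p.2⟩ :
          {p : S × S // res r S p.1 p.2})) ?_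
      intro p p' hpp
      have h6 := congrArg (fun z : {p : S × S // res r S p.1 p.2} => (z.1.1.1, z.1.2.1)) hpp
      exact Subtype.ext h6
    omega
  obtain ⟨y, hy⟩ : ∃ y, Sᶜ = {y} := by
    apply Set.ncard_eq_one.1
    have h5 := Set.ncard_add_ncard_compl S
    rw [← Nat.card_coe_set_eq] at h5
    omega
  have hmem : ∀ v, v ∉ S → v = y := by
    intro v hv
    have h5 : v ∈ Sᶜ := hv
    rw [hy] at h5
    exact h5
  -- the graph is connected
  apply hd
  unfold Cn at hScn
  rw [fromRel_res] at hScn
  have hreach : ∀ u v, u ∈ S → v ∈ S → (SimpleGraph.fromRel r).Reachable u v := by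
    intro u v hu hv
    exact (hScn.preconnected ⟨u, hu⟩ ⟨v, hv⟩).map (SimpleGraph.Embedding.induce S).toHom
  have hneq : a ≠ b := by
    rintro rfl
    exact hirr a hab
  have hadj : (SimpleGraph.fromRel r).Adj a b := by
    rw [SimpleGraph.fromRel_adj]
    exact ⟨hneq, Or.inl hab⟩
  -- `y` is joined to a vertex of `S`
  obtain ⟨s, hsS, hsy⟩ : ∃ s, s ∈ S ∧ (SimpleGraph.fromRel r).Reachable y s := by
    by_cases ha : a ∈ S
    · have hb : b ∉ S := fun hb => hnS ⟨ha, hb⟩
      refine ⟨a, ha, ?_⟩
      rw [← hmem b hb]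
      exact hadj.symm.reachable
    · have h5 := hmem a ha
      by_cases hb : b ∈ S
      · refine ⟨b, hb, ?_⟩
        rw [← h5]
        exact hadj.reachable
      · exact absurd (h5.trans (hmem b hb).symm) hneq
  have hall : ∀ v, (SimpleGraph.fromRel r).Reachable v s := by
    intro v
    by_cases hv : v ∈ S
    · exact hreach v s hv hsS
    · rw [hmem v hv]
      exact hsy
  exact ⟨fun u v => (hall u).trans (hall v).symm⟩

end Pool.Agent.H22K
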