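import Mathlib

/-!
A counting lemma for finite relations (directed graphs): the cards obtained by deleting a sink and
the cards obtained by deleting all arcs which leave a vertex determine the number of induced
copies of every smaller relation.
-/

namespace Pool.Agent.H22K

universe u

variable {V V' W : Type u}

/-- the relation induced on a set -/
def res (r : V → V → Prop) (S : Set V) : S → S → Prop := fun a b => r a b

/-- `x` has no successor -/
def Sink (r : V → V → Prop) (x : V) : Prop := ∀ y, ¬ r x y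

/-- all arcs which leave `x` are deleted -/
def del (r : V → V → Prop) (x : V) : V → V → Prop := fun a b => r a b ∧ a ≠ x

/-- the number of vertices which are not sinks -/
noncomputable def nn (r : V → V → Prop) : ℕ := Nat.card {x // ¬ Sink r x}

/-- the number of induced copies of `q` in `r` -/
noncomputable def subs (r : V → V → Prop) (q : W → W → Prop) : ℕ :=
  Nat.card {S : Set V // Nonempty (res r S ≃r q)}

/-- the number of cards of `r` isomorphic to `q` which arise by deleting the arcs which leave a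
vertex -/
noncomputable def en (r : V → V → Prop) (q : W → W → Prop) : ℕ :=
  Nat.card {x // ¬ Sink r x ∧ Nonempty (del r x ≃r q)}

/-! ### invariance under isomorphisms -/

lemma sink_iso {r : V → V → Prop} {r' : V' → V' → Prop} (e : r ≃r r') (x : V) :
    Sink r' (e x) ↔ Sink r x := by
  constructor
  · intro h y hxy
    exact h (e y) (e.map_rel_iff.2 hxy)
  · intro h y hxy
    refine h (e.symm y) ?_
    rw [← e.map_rel_iff]
    simpa using hxy

lemma nn_iso {r : V → V → Prop} {r' : V' → V' → Prop} (h : Nonempty (r ≃r r')) :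
    nn r = nn r' := by
  obtain ⟨e⟩ := h
  exact Nat.card_congr (e.toEquiv.subtypeEquiv fun x => not_congr (sink_iso e x).symm)

/-- the isomorphism on an induced relation -/
def resIso {r : V → V → Prop} {r' : V' → V' → Prop} (e : r ≃r r') (S : Set V) :
    res r S ≃r res r' (e.toEquiv.symm ⁻¹' S) where
  toEquiv := e.toEquiv.subtypeEquiv fun x => by
    show x ∈ S ↔ e.toEquiv.symm (e.toEquiv x) ∈ S
    rw [Equiv.symm_apply_apply]
  map_rel_iff' := by
    intro a b
    exact e.map_rel_iff

/-- the isomorphism after deleting arcs -/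
def delIso {r : V → V → Prop} {r' : V' → V' → Prop} (e : r ≃r r') (x : V) :
    del r x ≃r del r' (e x) where
  toEquiv := e.toEquiv
  map_rel_iff' := by
    intro a b
    show r' (e a) (e b) ∧ e a ≠ e x ↔ r a b ∧ a ≠ x
    rw [e.map_rel_iff, e.injective.ne_iff]

lemma subs_iso {r : V → V → Prop} {r' : V' → V' → Prop} (h : Nonempty (r ≃r r'))
    (q : W → W → Prop) : subs r q = subs r' q := by
  obtain ⟨e⟩ := h
  refine Nat.card_congr ((Equiv.Set.congr e.toEquiv).subtypeEquiv fun S => ?_)
  have h1 : (Equiv.Set.congr e.toEquiv) S = e.toEquiv.symm ⁻¹' S := by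
    show e.toEquiv '' S = _
    exact Equiv.image_eq_preimage_symm _ _
  rw [h1]
  constructor
  · rintro ⟨f⟩
    exact ⟨(resIso e S).symm.trans f⟩
  · rintro ⟨f⟩
    exact ⟨(resIso e S).trans f⟩

lemma en_iso {r : V → V → Prop} {r' : V' → V' → Prop} (h : Nonempty (r ≃r r'))
    (q : W → W → Prop) : en r q = en r' q := by
  obtain ⟨e⟩ := h
  refine Nat.card_congr (e.toEquiv.subtypeEquiv fun x => ?_)
  refine and_congr (not_congr (sink_iso e x).symm) ?_
  constructor
  · rintro ⟨f⟩
    exact ⟨(delIso e x).symm.trans f⟩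
  · rintro ⟨f⟩
    exact ⟨(delIso e x).trans f⟩

/-! ### isomorphism classes -/

/-- the isomorphism class of a finite relation, as a set of relations on the types `Fin n` -/
def code (r : V → V → Prop) : Set (Σ n : ℕ, Fin n → Fin n → Prop) :=
  {p | Nonempty (r ≃r p.2)}

lemma code_nonempty [Finite V] (r : V → V → Prop) : (code r).Nonempty := by
  obtain ⟨n, ⟨e⟩⟩ := Finite.exists_equiv_fin V
  refine ⟨⟨n, fun a b => r (e.symm a) (e.symm b)⟩, ⟨⟨e, ?_⟩⟩⟩
  intro a b
  simp

lemma code_eq_iff [Finite V] (r : V → V → Prop) (r' : V' → V' → Prop) :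
    code r = code r' ↔ Nonempty (r ≃r r') := by
  constructor
  · intro h
    obtain ⟨p, hp⟩ := code_nonempty r
    have hp' : p ∈ code r' := h ▸ hp
    obtain ⟨e⟩ := hp
    obtain ⟨e'⟩ := hp'
    exact ⟨e.trans e'.symm⟩
  · rintro ⟨e⟩
    ext p
    constructor
    · rintro ⟨f⟩
      exact ⟨e.symm.trans f⟩
    · rintro ⟨f⟩
      exact ⟨e.trans f⟩

/-- two maps all of whose fibres have the same size differ by a bijection -/
lemma exists_equiv_of_fibers {A B X : Type*} [Finite A] [Finite B] (f : A → X) (g : B → X)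
    (h : ∀ x, Nat.card {a // f a = x} = Nat.card {b // g b = x}) :
    ∃ e : A ≃ B, ∀ a, g (e a) = f a := by
  have key : ∀ x, Nonempty ({a // f a = x} ≃ {b // g b = x}) := fun x =>
    Finite.card_eq.1 (h x)
  let k : ∀ x, {a // f a = x} ≃ {b // g b = x} := fun x => Classical.choice (key x)
  refine ⟨(Equiv.sigmaFiberEquiv f).symm.trans ((Equiv.sigmaCongrRight k).trans
    (Equiv.sigmaFiberEquiv g)), fun a => ?_⟩
  simp only [Equiv.trans_apply, Equiv.sigmaFiberEquiv, Equiv.coe_fn_symm_mk, Equiv.coe_fn_mk,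
    Equiv.sigmaCongrRight_apply]
  exact (k (f a) ⟨a, rfl⟩).2

lemma sum_eq_of_fibers {A B X : Type*} [Fintype A] [Fintype B] (f : A → X) (g : B → X)
    (h : ∀ x, Nat.card {a // f a = x} = Nat.card {b // g b = x}) (F : A → ℕ) (G : B → ℕ)
    (hFG : ∀ a b, f a = g b → F a = G b) : ∑ a, F a = ∑ b, G b := by
  obtain ⟨e, he⟩ := exists_equiv_of_fibers f g h
  exact Fintype.sum_equiv e _ _ fun a => hFG a (e a) (he a).symm

/-! ### the two counting identities -/

/-- copies in an induced relation are copies inside the set -/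
lemma subs_res (r : V → V → Prop) (A : Set V) (q : W → W → Prop) :
    subs (res r A) q = Nat.card {S : Set V // S ⊆ A ∧ Nonempty (res r S ≃r q)} := by
  have key : ∀ S' : Set A, Nonempty (res (res r A) S' ≃r res r (Subtype.val '' S')) := by
    intro S'
    refine ⟨⟨Equiv.ofBijective
      (fun x : S' => (⟨x.1.1, x.1, x.2, rfl⟩ : (Subtype.val '' S' : Set V))) ⟨?_, ?_⟩, ?_⟩⟩
    · intro a b h
      exact Subtype.ext (Subtype.ext
        (congrArg (fun z : (Subtype.val '' S' : Set V) => z.1) h))
    · rintro ⟨-, ⟨x, hx, rfl⟩⟩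
      exact ⟨⟨x, hx⟩, rfl⟩
    · intro a b
      exact Iff.rfl
  refine Nat.card_congr ⟨fun S' => ⟨Subtype.val '' S'.1, ?_, ?_⟩,
    fun S => ⟨Subtype.val ⁻¹' S.1, ?_⟩, ?_, ?_⟩
  · rintro _ ⟨x, -, rfl⟩
    exact x.2
  · obtain ⟨e⟩ := key S'.1
    obtain ⟨f⟩ := S'.2
    exact ⟨e.symm.trans f⟩
  · obtain ⟨e⟩ := key (Subtype.val ⁻¹' S.1)
    obtain ⟨f⟩ := S.2.2
    rw [Subtype.image_preimage_coe, Set.inter_eq_right.2 S.2.1] at e
    exact ⟨e.trans f⟩
  · rintro ⟨S', hS'⟩
    simp only [Subtype.mk.injEq]
    exact Set.preimage_image_eq S' Subtype.val_injective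
  · rintro ⟨S, hS, hS'⟩
    simp only [Subtype.mk.injEq, Subtype.image_preimage_coe]
    exact Set.inter_eq_right.2 hS

/-- counting pairs in two ways -/
lemma sum_card_swap {A B : Type*} [Fintype A] [Fintype B] (P : A → B → Prop) :
    ∑ a, Nat.card {b // P a b} = ∑ b, Nat.card {a // P a b} := by
  rw [← Nat.card_sigma, ← Nat.card_sigma]
  exact Nat.card_congr ⟨fun x => ⟨x.2.1, x.1, x.2.2⟩, fun x => ⟨x.2.1, x.1, x.2.2⟩,
    fun _ => rfl, fun _ => rfl⟩

/-- the vertices which are not sinks in the induced relation -/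
def NS (r : V → V → Prop) (S : Set V) (x : V) : Prop := ∃ hx : x ∈ S, ¬ Sink (res r S) ⟨x, hx⟩

lemma NS.notSink {r : V → V → Prop} {S : Set V} {x : V} (h : NS r S x) : ¬ Sink r x := by
  obtain ⟨hx, h⟩ := h
  exact fun hs => h fun y hy => hs y.1 hy

lemma card_NS (r : V → V → Prop) (S : Set V) : Nat.card {x // NS r S x} = nn (res r S) :=
  Nat.card_congr ⟨fun x => ⟨⟨x.1, x.2.1⟩, x.2.2⟩, fun x => ⟨x.1.1, x.1.2, x.2⟩,
    fun _ => rfl, fun _ => rfl⟩

lemma nn_res_le [Finite V] (r : V → V → Prop) (S : Set V) : nn (res r S) ≤ nn r := by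
  rw [← card_NS]
  exact Nat.card_le_card_of_injective
    (fun x : {x // NS r S x} => (⟨x.1, x.2.notSink⟩ : {x // ¬ Sink r x}))
    (fun a b h => Subtype.ext (by simpa using h))

lemma card_split [Finite V] (P Q : V → Prop) :
    Nat.card {x // P x} = Nat.card {x // P x ∧ Q x} + Nat.card {x // P x ∧ ¬ Q x} := by
  classical
  have : Fintype V := Fintype.ofFinite V
  simp only [Nat.card_eq_fintype_card, Fintype.card_subtype]
  rw [← Finset.filter_filter, ← Finset.filter_filter]
  exact (Finset.card_filter_add_card_filter_not _).symm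

lemma card_not_NS [Finite V] (r : V → V → Prop) (S : Set V) :
    Nat.card {x // ¬ Sink r x ∧ ¬ NS r S x} = nn r - nn (res r S) := by
  have h1 := card_split (fun x => ¬ Sink r x) (NS r S)
  have h2 : Nat.card {x // ¬ Sink r x ∧ NS r S x} = nn (res r S) := by
    rw [← card_NS]
    exact Nat.card_congr (Equiv.subtypeEquivRight fun x => ⟨fun h => h.2, fun h => ⟨h.notSink, h⟩⟩)
  rw [h2] at h1
  have h3 : Nat.card {x // ¬ Sink r x} = nn r := rfl
  omega

/-- the cards which contain a copy on the set `S` -/
lemma card_cards [Finite V] (r : V → V → Prop) (S : Set V) (q : W → W → Prop) [Decidable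
    (Nonempty (res r S ≃r q))] :
    Nat.card {x : {x // ¬ Sink r x} // Nonempty (res (del r x.1) S ≃r q)} =
      (if Nonempty (res r S ≃r q) then nn r - nn q else 0) + en (res r S) q := by
  have h0 : Nat.card {x : {x // ¬ Sink r x} // Nonempty (res (del r x.1) S ≃r q)} =
      Nat.card {x // ¬ Sink r x ∧ Nonempty (res (del r x) S ≃r q)} :=
    Nat.card_congr ⟨fun x => ⟨x.1.1, x.1.2, x.2⟩, fun x => ⟨⟨x.1, x.2.1⟩, x.2.2⟩,
      fun _ => rfl, fun _ => rfl⟩
  rw [h0, card_split _ (NS r S), add_comm]
  congr 1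
  · have h1 : ∀ x, ¬ NS r S x → res (del r x) S = res r S := by
      intro x hx
      funext a b
      refine propext ⟨fun h => h.1, fun h => ⟨h, fun hax => hx ?_⟩⟩
      subst hax
      exact ⟨a.2, fun hs => hs b h⟩
    split_ifs with hiso
    · rw [← nn_iso hiso, ← card_not_NS]
      refine Nat.card_congr (Equiv.subtypeEquivRight fun x => ?_)
      constructor
      · rintro ⟨⟨h2, -⟩, h3⟩
        exact ⟨h2, h3⟩
      · rintro ⟨h2, h3⟩
        exact ⟨⟨h2, by rw [h1 x h3]; exact hiso⟩, h3⟩
    · have : IsEmpty {x // (¬ Sink r x ∧ Nonempty (res (del r x) S ≃r q)) ∧ ¬ NS r S x} := by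
        refine ⟨?_⟩
        rintro ⟨x, ⟨-, h2⟩, h3⟩
        rw [h1 x h3] at h2
        exact hiso h2
      exact Nat.card_of_isEmpty
  · have h1 : ∀ x (hx : x ∈ S), res (del r x) S = del (res r S) ⟨x, hx⟩ := by
      intro x hx
      funext a b
      refine propext ⟨fun h => ⟨h.1, fun hax => h.2 (by rw [hax])⟩,
        fun h => ⟨h.1, fun hax => h.2 (Subtype.ext hax)⟩⟩
    refine Nat.card_congr ⟨fun x => ⟨⟨x.1, x.2.2.1⟩, x.2.2.2, ?_⟩,
      fun x => ⟨x.1.1, ⟨?_, ?_⟩, x.1.2, x.2.1⟩, fun _ => rfl, fun _ => rfl⟩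
    · have := x.2.1.2
      rwa [h1 x.1 x.2.2.1] at this
    · exact NS.notSink (S := S) ⟨x.1.2, x.2.1⟩
    · have := x.2.2
      rwa [← h1 x.1.1 x.1.2] at this

/-- the identity for the cards with arcs deleted -/
theorem sum_del [Fintype V] (r : V → V → Prop) (q : W → W → Prop)
    [Fintype {x // ¬ Sink r x}] [Fintype (Set V)] :
    ∑ x : {x // ¬ Sink r x}, subs (del r x.1) q =
      (nn r - nn q) * subs r q + ∑ S : Set V, en (res r S) q := by
  classical
  have h1 : ∑ x : {x // ¬ Sink r x}, subs (del r x.1) q =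
      ∑ S : Set V, Nat.card {x : {x // ¬ Sink r x} // Nonempty (res (del r x.1) S ≃r q)} :=
    sum_card_swap fun (x : {x // ¬ Sink r x}) (S : Set V) => Nonempty (res (del r x.1) S ≃r q)
  rw [h1]
  simp only [card_cards, Finset.sum_add_distrib]
  congr 1
  rw [Finset.sum_ite, Finset.sum_const_zero, add_zero, Finset.sum_const, smul_eq_mul, mul_comm]
  congr 1
  rw [subs, Nat.card_eq_fintype_card, Fintype.card_subtype]

/-- the identity for the cards with a sink deleted -/
theorem sum_sink [Fintype V] [Finite W] (r : V → V → Prop) (q : W → W → Prop)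
    [Fintype {x // Sink r x}] (h : nn q = nn r) :
    ∑ m : {x // Sink r x}, subs (res r {v | v ≠ m.1}) q =
      (Nat.card V - Nat.card W) * subs r q := by
  classical
  have h1 : ∑ m : {x // Sink r x}, subs (res r {v | v ≠ m.1}) q =
      ∑ S : Set V, Nat.card {m : {x // Sink r x} // S ⊆ {v | v ≠ m.1} ∧
        Nonempty (res r S ≃r q)} := by
    simp only [subs_res]
    exact sum_card_swap fun (m : {x // Sink r x}) (S : Set V) =>
      S ⊆ {v | v ≠ m.1} ∧ Nonempty (res r S ≃r q)
  have h2 : ∀ S : Set V, Nat.card {m : {x // Sink r x} // S ⊆ {v | v ≠ m.1} ∧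
      Nonempty (res r S ≃r q)} =
      if Nonempty (res r S ≃r q) then Nat.card V - Nat.card W else 0 := by
    intro S
    split_ifs with hiso
    · have h3 : ∀ x, ¬ Sink r x → x ∈ S := by
        intro x hx
        by_contra hxS
        have h4 := card_not_NS r S
        rw [nn_iso hiso, h, Nat.sub_self] at h4
        have : Nonempty {x // ¬ Sink r x ∧ ¬ NS r S x} := ⟨⟨x, hx, fun hN => hxS hN.1⟩⟩
        exact absurd h4 (Nat.card_pos).ne'
      have h5 : Nat.card S = Nat.card W := by
        obtain ⟨e⟩ := hiso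
        exact Nat.card_congr e.toEquiv
      have h6 : Nat.card {m : {x // Sink r x} // S ⊆ {v | v ≠ m.1} ∧ Nonempty (res r S ≃r q)} =
          Nat.card (Sᶜ : Set V) := by
        refine Nat.card_congr ⟨fun m => ⟨m.1.1, fun hm => m.2.1 hm rfl⟩,
          fun x => ⟨⟨x.1, ?_⟩, ?_, hiso⟩, fun _ => rfl, fun _ => rfl⟩
        · by_contra hx
          exact x.2 (h3 x.1 hx)
        · rintro v hv rfl
          exact x.2 hv
      rw [h6, ← h5, Nat.card_coe_set_eq, Nat.card_coe_set_eq]
      have h7 := Set.ncard_add_ncard_compl S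
      omega
    · have : IsEmpty {m : {x // Sink r x} // S ⊆ {v | v ≠ m.1} ∧ Nonempty (res r S ≃r q)} :=
        ⟨fun m => hiso m.2.2⟩
      exact Nat.card_of_isEmpty
  rw [h1]
  simp only [h2]
  rw [Finset.sum_ite, Finset.sum_const_zero, add_zero, Finset.sum_const, smul_eq_mul, mul_comm]
  congr 1
  rw [subs, Nat.card_eq_fintype_card, Fintype.card_subtype]

/-! ### the counting lemma -/

lemma subs_eq_zero [Finite V] (r : V → V → Prop) (q : W → W → Prop) (h : nn r < nn q) :
    subs r q = 0 := by
  have : IsEmpty {S : Set V // Nonempty (res r S ≃r q)} := by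
    refine ⟨?_⟩
    rintro ⟨S, hS⟩
    have := nn_res_le r S
    rw [nn_iso hS] at this
    omega
  exact Nat.card_of_isEmpty

lemma nn_del [Finite V] (r : V → V → Prop) (x : V) (hx : ¬ Sink r x) :
    nn (del r x) + 1 = nn r := by
  have h1 := card_split (fun y => ¬ Sink r y) (fun y => y = x)
  have h2 : Nat.card {y // ¬ Sink r y ∧ y = x} = 1 := by
    rw [Nat.card_eq_one_iff_unique]
    refine ⟨⟨fun a b => Subtype.ext (a.2.2.trans b.2.2.symm)⟩, ⟨⟨x, hx, rfl⟩⟩⟩
  have h3 : Nat.card {y // ¬ Sink r y ∧ ¬ y = x} = nn (del r x) := by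
    refine Nat.card_congr (Equiv.subtypeEquivRight fun y => ?_)
    constructor
    · rintro ⟨h4, h5⟩ h6
      exact h4 fun z hz => h6 z ⟨hz, h5⟩
    · intro h4
      refine ⟨fun h5 => h4 fun z hz => h5 z hz.1, fun h5 => h4 fun z hz => hz.2 h5⟩
  have h4 : Nat.card {y // ¬ Sink r y} = nn r := rfl
  omega

/-- **The counting lemma.** If two finite relations have the same cards, both the ones obtained by
deleting a sink and the ones obtained by deleting the arcs which leave a vertex, then they have
the same number of induced copies of every smaller relation. -/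
theorem subs_eq [Finite V] [Finite V'] (r : V → V → Prop) (r' : V' → V' → Prop)
    (eM : {m // Sink r m} ≃ {m // Sink r' m})
    (hM : ∀ m, Nonempty (res r {v | v ≠ m.1} ≃r res r' {v | v ≠ (eM m).1}))
    (eE : {x // ¬ Sink r x} ≃ {x // ¬ Sink r' x})
    (hE : ∀ x, Nonempty (del r x.1 ≃r del r' (eE x).1)) :
    ∀ (W : Type u) [Finite W] (q : W → W → Prop), Nat.card W < Nat.card V →
      subs r q = subs r' q := by
  classical
  have : Fintype V := Fintype.ofFinite V
  have : Fintype V' := Fintype.ofFinite V'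
  have hk : nn r = nn r' := Nat.card_congr eE
  have hcard : Nat.card V = Nat.card V' := by
    have h1 := Nat.card_congr eM
    have h2 := Nat.card_congr eE
    have h3 := card_split (fun _ : V => True) (Sink r)
    have h4 := card_split (fun _ : V' => True) (Sink r')
    simp only [true_and] at h3 h4
    rw [h1, h2, ← h4] at h3
    simpa [Nat.card_congr (Equiv.Set.univ _), Nat.card_eq_fintype_card] using h3
  have key : ∀ j : ℕ, ∀ (W : Type u) [Finite W] (q : W → W → Prop),
      Nat.card W < Nat.card V → nn q + j = nn r → subs r q = subs r' q := by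
    intro j
    induction j with
    | zero =>
      intro W _ q hW hq
      have h1 := sum_sink r q (by omega)
      have h2 := sum_sink r' q (by omega)
      have h3 : ∑ m : {x // Sink r x}, subs (res r {v | v ≠ m.1}) q =
          ∑ m : {x // Sink r' x}, subs (res r' {v | v ≠ m.1}) q :=
        Fintype.sum_equiv eM _ _ fun m => subs_iso (hM m) q
      rw [h1, h2, ← hcard] at h3
      exact Nat.eq_of_mul_eq_mul_left (by omega) h3
    | succ j ih =>
      intro W _ q hW hq
      have h1 := sum_del r q
      have h2 := sum_del r' q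
      have h3 : ∑ x : {x // ¬ Sink r x}, subs (del r x.1) q =
          ∑ x : {x // ¬ Sink r' x}, subs (del r' x.1) q :=
        Fintype.sum_equiv eE _ _ fun x => subs_iso (hE x) q
      -- the error terms agree
      have h4 : ∀ {U : Type u} [Fintype U] (s : U → U → Prop), ∑ S : Set U, en (res s S) q =
          ∑ S : {S : Set U // Nat.card S = Nat.card W ∧ nn (res s S) = nn q + 1},
            en (res s S.1) q := by
        intro U _ s
        have h5 : ∑ S : {S : Set U // Nat.card S = Nat.card W ∧ nn (res s S) = nn q + 1},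
            en (res s S.1) q = ∑ S ∈ Finset.univ.filter fun S : Set U =>
              Nat.card S = Nat.card W ∧ nn (res s S) = nn q + 1, en (res s S) q :=
          (Finset.sum_subtype _ (fun S => by simp only [Finset.mem_filter, Finset.mem_univ,
            true_and]) fun S : Set U => en (res s S) q).symm
        rw [h5]
        symm
        refine Finset.sum_subset (Finset.subset_univ _) ?_
        intro S _ hS
        by_contra hne
        have h6 : Nonempty {x // ¬ Sink (res s S) x ∧ Nonempty (del (res s S) x ≃r q)} := by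
          by_contra h7
          rw [not_nonempty_iff] at h7
          exact hne Nat.card_of_isEmpty
        obtain ⟨x, hx, ⟨e⟩⟩ := h6
        refine hS (Finset.mem_filter.2 ⟨Finset.mem_univ _, Nat.card_congr e.toEquiv, ?_⟩)
        have h7 := nn_del (res s S) x hx
        rw [nn_iso ⟨e⟩] at h7
        exact h7.symm
      have h5 : ∑ S : Set V, en (res r S) q = ∑ S : Set V', en (res r' S) q := by
        rw [h4 r, h4 r']
        refine sum_eq_of_fibers (fun S => code (res r S.1)) (fun S => code (res r' S.1)) ?_ _ _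
          (fun S S' h => en_iso ((code_eq_iff _ _).1 h) q)
        -- the fibres
        have h6 : ∀ {U : Type u} [Fintype U] (s : U → U → Prop) {Y : Type u} [Finite Y]
            (y : Y → Y → Prop), Nat.card Y = Nat.card W → nn y = nn q + 1 →
            Nat.card {S : {S : Set U // Nat.card S = Nat.card W ∧ nn (res s S) = nn q + 1} //
              code (res s S.1) = code y} = subs s y := by
          intro U _ s Y _ y hy1 hy2
          refine Nat.card_congr ⟨fun S => ⟨S.1.1, (code_eq_iff _ _).1 S.2⟩,
            fun S => ⟨⟨S.1, ?_, ?_⟩, (code_eq_iff _ _).2 S.2⟩, fun _ => rfl, fun _ => rfl⟩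
          · obtain ⟨e⟩ := S.2
            rw [Nat.card_congr e.toEquiv, hy1]
          · rw [nn_iso S.2, hy2]
        intro c
        by_cases hc : ∃ S : {S : Set V // Nat.card S = Nat.card W ∧ nn (res r S) = nn q + 1},
            code (res r S.1) = c
        · obtain ⟨S, rfl⟩ := hc
          rw [h6 r (res r S.1) S.2.1 S.2.2, h6 r' (res r S.1) S.2.1 S.2.2]
          exact ih S.1 (res r S.1) (by rw [S.2.1]; exact hW) (by rw [S.2.2]; omega)
        · by_cases hc' : ∃ S : {S : Set V' // Nat.card S = Nat.card W ∧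
              nn (res r' S) = nn q + 1}, code (res r' S.1) = c
          · obtain ⟨S, rfl⟩ := hc'
            rw [h6 r (res r' S.1) S.2.1 S.2.2, h6 r' (res r' S.1) S.2.1 S.2.2]
            exact ih S.1 (res r' S.1) (by rw [S.2.1]; exact hW) (by rw [S.2.2]; omega)
          · push Not at hc hc'
            have i1 : IsEmpty {S : {S : Set V // Nat.card S = Nat.card W ∧
                nn (res r S) = nn q + 1} // code (res r S.1) = c} := ⟨fun S => hc S.1 S.2⟩
            have i2 : IsEmpty {S : {S : Set V' // Nat.card S = Nat.card W ∧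
                nn (res r' S) = nn q + 1} // code (res r' S.1) = c} := ⟨fun S => hc' S.1 S.2⟩
            rw [Nat.card_of_isEmpty, Nat.card_of_isEmpty]
      rw [h1, h2, h5, ← hk] at h3
      exact Nat.eq_of_mul_eq_mul_left (by omega) (Nat.add_right_cancel h3)
  intro W _ q hW
  by_cases hq : nn q ≤ nn r
  · exact key (nn r - nn q) W q hW (by omega)
  · push Not at hq
    rw [subs_eq_zero r q hq, subs_eq_zero r' q (hk ▸ hq)]

end Pool.Agent.H22K
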