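import Pool.Agent.H22K.Disc
import Pool.Agent.H22K.Data

/-!
Disconnected ordered sets and ordinal sums.
-/

namespace Pool.Agent.H22K

universe u

variable {V V' : Type u}

section

variable [Finite V] [Finite V'] {r : V → V → Prop} {r' : V' → V' → Prop} {x : V} {x' : V'}

/-- the level structure of one card, for an arbitrary vertex which is not a sink -/
theorem levels_gen (hr : SOrd r) (hr' : SOrd r')
    (hdn : ∀ j, {w | Sink r w ∧ dn r w ≤ j}.ncard = {w | Sink r' w ∧ dn r' w ≤ j}.ncard)
    (hx : ¬ Sink r x) (hx' : ¬ Sink r' x') (φ : del r x ≃r del r' x') {z : V} (hz : φ z = x') :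
    dn (del r x) z = dn (del r x) x ∧
      {v | r x v ∧ Sink r v}.ncard = {v | r' x' (φ v) ∧ Sink (del r x) v}.ncard := by
  classical
  have hφdn : ∀ v, dn (del r' x') (φ v) = dn (del r x) v := fun v => dn_iso φ v
  have hφs : ∀ v, Sink (del r' x') (φ v) ↔ Sink (del r x) v := fun v => sink_iso φ v
  have hxS : Sink (del r x) x := (sink_del r x x).2 (Or.inr rfl)
  have hzS : Sink (del r x) z := by
    rw [← hφs, hz]
    exact (sink_del r' x' x').2 (Or.inr rfl)
  set K : Set V := {v | r' x' (φ v) ∧ Sink (del r x) v} with hK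
  set U : Set V := {v | r x v ∧ Sink r v} with hUdef
  have hKz : z ∉ K := by
    rintro ⟨h, -⟩
    rw [hz] at h
    exact hr'.irr _ h
  -- the key identity
  have key : ∀ j, {v | v ∈ U ∧ dn (del r x) v = j}.ncard +
      (if dn (del r x) x ≤ j then 1 else 0) =
      {v | v ∈ K ∧ dn (del r x) v = j}.ncard + (if dn (del r x) z ≤ j then 1 else 0) := by
    intro j
    have h1 := level_count {v | Sink (del r x) v} (dn (del r x)) x hxS U
      (fun v hv => (sink_del r x v).2 (Or.inl hv.2)) (fun h => hr.irr x h.1) j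
    have h2 := level_count {v | Sink (del r x) v} (dn (del r x)) z hzS K (fun v hv => hv.2) hKz j
    have h3 : {v | v ∈ {v | Sink (del r x) v} ∧ v ≠ x ∧
        dn (del r x) v + (if v ∈ U then 1 else 0) ≤ j} = {w | Sink r w ∧ dn r w ≤ j} := by
      ext v
      simp only [Set.mem_ofPred_eq]
      rw [dn_del r x v]
      constructor
      · rintro ⟨h, hvx, h'⟩
        have hs := ((sink_del r x v).1 h).resolve_right hvx
        refine ⟨hs, ?_⟩
        by_cases hxv : r x v
        · rw [if_pos hxv]
          rw [if_pos (show v ∈ U from ⟨hxv, hs⟩)] at h'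
          exact h'
        · rw [if_neg hxv]
          omega
      · rintro ⟨h, h'⟩
        refine ⟨(sink_del r x v).2 (Or.inl h), fun hvx => hx (hvx ▸ h), ?_⟩
        by_cases hxv : r x v
        · rw [if_pos (show v ∈ U from ⟨hxv, h⟩)]
          rw [if_pos hxv] at h'
          exact h'
        · rw [if_neg (fun hv : v ∈ U => hxv hv.1)]
          omega
    have h4 : {v | v ∈ {v | Sink (del r x) v} ∧ v ≠ z ∧
        dn (del r x) v + (if v ∈ K then 1 else 0) ≤ j} =
        φ ⁻¹' {w | Sink r' w ∧ dn r' w ≤ j} := by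
      ext v
      simp only [Set.mem_ofPred_eq, Set.mem_preimage]
      rw [dn_del r' x' (φ v), hφdn]
      have h5 : v ≠ z ↔ φ v ≠ x' := by
        constructor
        · intro h h'
          exact h (φ.injective (h'.trans hz.symm))
        · rintro h rfl
          exact h hz
      constructor
      · rintro ⟨h, hvz, h'⟩
        refine ⟨((sink_del r' x' (φ v)).1 ((hφs v).2 h)).resolve_right (h5.1 hvz), ?_⟩
        by_cases hk : r' x' (φ v)
        · have hvK : v ∈ K := ⟨hk, h⟩
          rw [if_pos hvK] at h'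
          rw [if_pos hk]
          exact h'
        · rw [if_neg hk]
          omega
      · rintro ⟨h, h'⟩
        have hvS : Sink (del r x) v := (hφs v).1 ((sink_del r' x' (φ v)).2 (Or.inl h))
        refine ⟨hvS, h5.2 (fun hv => ?_), ?_⟩
        · rw [hv] at h
          exact hx' h
        by_cases hk : r' x' (φ v)
        · have hvK : v ∈ K := ⟨hk, hvS⟩
          rw [if_pos hvK]
          rw [if_pos hk] at h'
          exact h'
        · rw [if_neg (fun hv : v ∈ K => hk hv.1)]
          omega
    rw [h3] at h1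
    rw [h4, Set.ncard_preimage_of_injective_subset_range φ.injective (by
      intro w _
      exact φ.surjective w)] at h2
    rw [hdn j] at h1
    simp only [Set.mem_ofPred_eq] at h1 h2 ⊢
    omega
  have hsubx : ∀ v, v ∈ U → dn (del r x) x ≤ dn (del r x) v := by
    intro v hv
    refine Nat.card_le_card_of_injective (fun y : {y // (del r x) y x} =>
      (⟨y.1, hr.tr _ _ _ y.2.1 hv.1, y.2.2⟩ : {y // (del r x) y v})) ?_
    intro a b h
    exact Subtype.ext (congrArg (fun y : {y // (del r x) y v} => y.1) h)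
  have hsubz : ∀ v, v ∈ K → dn (del r x) z ≤ dn (del r x) v := by
    intro v hv
    refine Nat.card_le_card_of_injective (fun y : {y // (del r x) y z} =>
      (⟨y.1, kap_sub hr' φ hz hv.1 y.2⟩ : {y // (del r x) y v})) ?_
    intro a b h
    exact Subtype.ext (congrArg (fun y : {y // (del r x) y v} => y.1) h)
  have hzx : dn (del r x) z = dn (del r x) x := by
    rcases Nat.lt_trichotomy (dn (del r x) z) (dn (del r x) x) with h | h | h
    · exfalso
      have h1 := key (dn (del r x) z)
      rw [if_neg (by omega), if_pos le_rfl] at h1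
      have h2 : {v | v ∈ U ∧ dn (del r x) v = dn (del r x) z} = (∅ : Set V) := by
        ext v
        simp only [Set.mem_ofPred_eq, Set.mem_empty_iff_false, iff_false, not_and]
        intro hv h3
        have := hsubx v hv
        omega
      rw [h2, Set.ncard_empty] at h1
      omega
    · exact h
    · exfalso
      have h1 := key (dn (del r x) x)
      rw [if_pos le_rfl, if_neg (by omega)] at h1
      have h2 : {v | v ∈ K ∧ dn (del r x) v = dn (del r x) x} = (∅ : Set V) := by
        ext v
        simp only [Set.mem_ofPred_eq, Set.mem_empty_iff_false, iff_false, not_and]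
        intro hv h3
        have := hsubz v hv
        omega
      rw [h2, Set.ncard_empty] at h1
      omega
  have key2 : ∀ j, {v | v ∈ U ∧ dn (del r x) v = j}.ncard =
      {v | v ∈ K ∧ dn (del r x) v = j}.ncard := by
    intro j
    have := key j
    rw [hzx] at this
    omega
  refine ⟨hzx, ?_⟩
  obtain ⟨e, -⟩ := exists_equiv_of_fibers (fun v : U => dn (del r x) v.1)
    (fun v : K => dn (del r x) v.1) (by
      intro j
      have h0 : ∀ S : Set V, Nat.card {v : S // dn (del r x) v.1 = j} =
          {v | v ∈ S ∧ dn (del r x) v = j}.ncard := by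
        intro S
        rw [← Nat.card_coe_set_eq]
        exact Nat.card_congr ⟨fun v => ⟨v.1.1, v.1.2, v.2⟩, fun v => ⟨⟨v.1, v.2.1⟩, v.2.2⟩,
          fun _ => rfl, fun _ => rfl⟩
      exact (h0 U).trans ((key2 j).trans (h0 K).symm))
  rw [← Nat.card_coe_set_eq, ← Nat.card_coe_set_eq]
  exact Nat.card_congr e

/-- a vertex below all vertices which are not in `A`, where `A` lies below its complement -/
theorem sum_card (hr : SOrd r) (hr' : SOrd r')
    (hdn : ∀ j, {w | Sink r w ∧ dn r w ≤ j}.ncard = {w | Sink r' w ∧ dn r' w ≤ j}.ncard)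
    (hx : ¬ Sink r x) (hx' : ¬ Sink r' x') (φ : del r x ≃r del r' x')
    (hup : up r x = up r' x') (A : Set V) (hA : ∀ a b, a ∈ A → b ∉ A → r a b)
    (hne : ∃ b, b ∉ A) (hxA : ∀ y, r x y ↔ y ∉ A) : Nonempty (r ≃r r') := by
  classical
  -- all sinks lie above `x`
  have hsink : ∀ v, Sink r v → r x v := by
    intro v hv
    rw [hxA]
    intro hvA
    obtain ⟨b, hb⟩ := hne
    exact hv b (hA v b hvA hb)
  have hxS : Sink (del r x) x := (sink_del r x x).2 (Or.inr rfl)
  obtain ⟨z, hz⟩ : ∃ z, φ z = x' := φ.surjective x'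
  have hzS : Sink (del r x) z := by
    rw [← sink_iso φ z, hz]
    exact (sink_del r' x' x').2 (Or.inr rfl)
  obtain ⟨hzx, hcard⟩ := levels_gen hr hr' hdn hx hx' φ hz
  -- `z` and `x` have the same predecessors in the card
  have hL : ∀ y, del r x y z ↔ del r x y x := by
    by_cases hzeq : z = x
    · subst hzeq
      exact fun y => Iff.rfl
    have hKx : r' x' (φ x) := by
      by_contra hKx
      have h1 : {v | r' x' (φ v) ∧ Sink (del r x) v} ⊂ {v | r x v ∧ Sink r v} := by
        have hsz : Sink r z := ((sink_del r x z).1 hzS).resolve_right hzeq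
        refine ⟨?_, fun h => ?_⟩
        · rintro v ⟨hv, hvs⟩
          have hvx : v ≠ x := by
            rintro rfl
            exact hKx hv
          have h2 := ((sink_del r x v).1 hvs).resolve_right hvx
          exact ⟨hsink v h2, h2⟩
        · have h2 := h (show z ∈ {v | r x v ∧ Sink r v} from ⟨hsink z hsz, hsz⟩)
          have h3 : r' x' (φ z) := h2.1
          rw [hz] at h3
          exact hr'.irr _ h3
      have h2 := Set.ncard_lt_ncard h1
      omega
    intro y
    exact (low_eq (del r x) (fun y hy => kap_sub hr' φ hz hKx hy) hzx.symm y).symm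
  -- exchange `x` and `z`
  have hperm := iso_of_perm (C := del r x) (Equiv.swap x z)
    (fun v hv => Equiv.swap_apply_of_ne_of_ne (by rintro rfl; exact hv hxS)
      (by rintro rfl; exact hv hzS))
    (fun v hv => by
      by_cases h1 : v = x
      · rw [h1, Equiv.swap_apply_left]
        exact hzS
      · by_cases h2 : v = z
        · rw [h2, Equiv.swap_apply_right]
          exact hxS
        · rw [Equiv.swap_apply_of_ne_of_ne h1 h2]
          exact hv)
    (fun v hv y => by
      by_cases h1 : v = x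
      · rw [h1, Equiv.swap_apply_left]
        exact hL y
      · by_cases h2 : v = z
        · rw [h2, Equiv.swap_apply_right]
          exact (hL y).symm
        · rw [Equiv.swap_apply_of_ne_of_ne h1 h2])
  let ψ : del r x ≃r del r' x' :=
    (⟨Equiv.swap x z, fun {a b} => hperm a b⟩ : del r x ≃r del r x).trans φ
  have hψ : ψ x = x' := by
    show φ (Equiv.swap x z x) = x'
    rw [Equiv.swap_apply_left]
    exact hz
  -- the second set
  have hK : {v | r' x' (ψ v)}.ncard = {v | r x v}.ncard := by
    rw [← Nat.card_coe_set_eq, ← Nat.card_coe_set_eq]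
    have h1 : Nat.card {v | r' x' (ψ v)} = up r' x' :=
      Nat.card_congr (ψ.toEquiv.subtypeEquiv fun v => Iff.rfl)
    rw [h1, ← hup]
    rfl
  have hKx : ¬ r' x' (ψ x) := by
    rw [hψ]
    exact hr'.irr _
  have hKup : ∀ v w, r' x' (ψ v) → r v w → r' x' (ψ w) := by
    intro v w hv hvw
    have hvx : v ≠ x := by
      rintro rfl
      exact hKx hv
    have h1 : del r' x' (ψ v) (ψ w) := ψ.map_rel_iff.2 ⟨hvw, hvx⟩
    exact hr'.tr _ _ _ hv h1.1
  have hKA : {v | r' x' (ψ v)} ⊆ {v | r x v} := by
    intro v hv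
    have hv' : r' x' (ψ v) := hv
    show r x v
    rw [hxA]
    intro hvA
    have h1 : {v | r x v} ⊂ {v | r' x' (ψ v)} := by
      refine ⟨fun w hw => hKup v w hv' (hA v w hvA ((hxA w).1 hw)), fun h => ?_⟩
      exact (hxA v).1 (h hv) hvA
    have h2 := Set.ncard_lt_ncard h1
    omega
  have heq := Set.eq_of_subset_of_ncard_le hKA hK.ge
  refine extend_iso ψ hψ fun y => ?_
  have h1 : y ∈ {v | r' x' (ψ v)} ↔ y ∈ {v | r x v} := by rw [heq]
  exact h1.symm

end

variable {P Q : Type u} [PartialOrder P] [PartialOrder Q] [Finite P] [Finite Q]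

/-- **Ordinal sums.** -/
theorem iso_of_sum (A : Set P) (h1 : A.Nonempty) (h2 : Aᶜ.Nonempty)
    (hA : ∀ a ∈ A, ∀ b ∉ A, a < b) (h : SameDecks P Q) : Nonempty (P ≃o Q) := by
  obtain ⟨hdn, eE, hE, hup⟩ := h.data
  rw [iso_iff]
  obtain ⟨b, hb⟩ := h2
  obtain ⟨x, hxA, hmax⟩ := Set.exists_max_image A (fun x => dn (lt' P) x) (Set.toFinite _) h1
  have hx : ¬ Sink (lt' P) x := fun hs => hs b (hA x hxA b hb)
  obtain ⟨φ⟩ := hE ⟨x, hx⟩
  refine sum_card (sord P) (sord Q) hdn hx (eE ⟨x, hx⟩).2 φ (hup ⟨x, hx⟩) A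
    (fun a b ha hb => hA a ha b hb) ⟨b, hb⟩ fun y => ⟨fun hy hyA => ?_, fun hy => hA x hxA y hy⟩
  have h3 := hmax y hyA
  have h4 : dn (lt' P) x < dn (lt' P) y := by
    have h5 : {v | lt' P v x} ⊂ {v | lt' P v y} := by
      refine ⟨fun v hv => (sord P).tr _ _ _ hv hy, fun h6 => (sord P).irr x (h6 hy)⟩
    have h6 := Set.ncard_lt_ncard h5
    rwa [← Nat.card_coe_set_eq, ← Nat.card_coe_set_eq] at h6
  omega

omit [Finite P] in
lemma not_cn_of_split (A : Set P) (h1 : A.Nonempty) (h2 : Aᶜ.Nonempty)
    (hA : ∀ a ∈ A, ∀ b ∉ A, ¬ a ≤ b ∧ ¬ b ≤ a) : ¬ Cn (lt' P) := by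
  intro hc
  obtain ⟨a, ha⟩ := h1
  obtain ⟨b, hb⟩ := h2
  have key : ∀ u v, (SimpleGraph.fromRel (lt' P)).Reachable u v → u ∈ A → v ∈ A := by
    rintro u v ⟨p⟩ hu
    induction p with
    | nil => exact hu
    | cons hadj _ ih =>
      apply ih
      by_contra hcon
      rw [SimpleGraph.fromRel_adj] at hadj
      have h3 := hA _ hu _ hcon
      rcases hadj.2 with h4 | h4
      · exact h3.1 (le_of_lt h4)
      · exact h3.2 (le_of_lt h4)
  exact hb (key a b (hc.preconnected a b) ha)

/-- **Disconnected ordered sets.** -/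
theorem iso_of_disc (A : Set P) (h1 : A.Nonempty) (h2 : Aᶜ.Nonempty)
    (hA : ∀ a ∈ A, ∀ b ∉ A, ¬ a ≤ b ∧ ¬ b ≤ a) (h : SameDecks P Q) : Nonempty (P ≃o Q) := by
  obtain ⟨eM, hM⟩ := h.exists_max
  obtain ⟨eE, hE⟩ := h.exists_enh
  have hd := not_cn_of_split A h1 h2 hA
  have hs : ∀ (W : Type u) [Finite W] (q : W → W → Prop), Nat.card W < Nat.card P →
      subs (lt' P) q = subs (lt' Q) q := fun W _ q hW => subs_eq _ _ eM hM eE hE W q hW
  have hcard := card_of_sameDecks h
  have harcs := arcs_eq _ _ (sord P).irr (sord Q).irr eM hM eE hE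
  rw [iso_iff]
  exact iso_of_disconnected (sord P).irr (sord Q).irr hd
    (not_cn_of (sord P).irr hd ⟨h1.some⟩ hcard harcs hs) hcard hs

end Pool.Agent.H22K
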