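import Pool.Agent.H22K.Kelly
import Pool.Agent.H22K.Defs

/-!
The counting lemma for ordered sets.
-/

namespace Pool.Agent.H22K

universe u

variable {P Q : Type u} [PartialOrder P] [PartialOrder Q]

/-- the strict order as a relation -/
def lt' (P : Type u) [PartialOrder P] : P → P → Prop := fun a b => a < b

lemma iso_iff : Nonempty (P ≃o Q) ↔ Nonempty (lt' P ≃r lt' Q) := by
  constructor
  · rintro ⟨e⟩
    exact ⟨e.toRelIsoLT⟩
  · rintro ⟨e⟩
    exact ⟨OrderIso.ofRelIsoLT e⟩

lemma res_lt' (S : Set P) : res (lt' P) S = lt' S := rfl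

lemma cut_lt (x a b : P) : @LT.lt (Cut x) _ a b ↔ a < b ∧ a ≠ x := by
  constructor
  · intro h
    have h1 : a ≤ b ∧ (a = x → b = x) := @le_of_lt (Cut x) _ a b h
    have h4 : a ≠ b := @ne_of_lt (Cut x) _ a b h
    refine ⟨lt_of_le_of_ne h1.1 h4, fun hax => h4 ?_⟩
    rw [hax]
    exact (h1.2 hax).symm
  · rintro ⟨h1, h2⟩
    have h3 : @LE.le (Cut x) _ a b := (⟨h1.le, fun h => absurd h h2⟩ : a ≤ b ∧ (a = x → b = x))
    exact @lt_of_le_of_ne (Cut x) _ a b h3 h1.ne

lemma lt'_cut (x : P) : lt' (Cut x) = del (lt' P) x := by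
  funext a b
  exact propext (cut_lt x (a : P) (b : P))

lemma isMax_iff (x : P) : IsMax x ↔ Sink (lt' P) x := by
  rw [isMax_iff_forall_not_lt]
  rfl

lemma copies_eq (C : Type u) [PartialOrder C] : Copies P C = subs (lt' P) (lt' C) := by
  refine Nat.card_congr (Equiv.subtypeEquivRight fun S => ?_)
  rw [iso_iff]
  rfl

lemma cut_iso_iff (x : P) (C : Type u) [PartialOrder C] :
    Nonempty (Cut x ≃o C) ↔ Nonempty (del (lt' P) x ≃r lt' C) := by
  rw [iso_iff, lt'_cut]
  rfl

lemma sub_iso_iff (x : P) (C : Type u) [PartialOrder C] :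
    Nonempty ({y : P // y ≠ x} ≃o C) ↔ Nonempty (res (lt' P) {v | v ≠ x} ≃r lt' C) := by
  rw [iso_iff]
  rfl

/-- matching the cards of the two maximal decks -/
lemma SameDecks.exists_max [Finite P] [Finite Q] (h : SameDecks P Q) :
    ∃ e : {m // Sink (lt' P) m} ≃ {m // Sink (lt' Q) m}, ∀ m,
      Nonempty (res (lt' P) {v | v ≠ m.1} ≃r res (lt' Q) {v | v ≠ (e m).1}) := by
  have h6 : ∀ {R : Type u} [PartialOrder R] [Finite R] (C : Type u) [PartialOrder C] [Finite C],
      Nat.card {m : {m // Sink (lt' R) m} // code (res (lt' R) {v | v ≠ m.1}) = code (lt' C)} =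
        MaxDeck R C := by
    intro R _ _ C _ _
    refine Nat.card_congr ⟨fun m => ⟨m.1.1, (isMax_iff _).2 m.1.2, (sub_iso_iff _ _).2
      ((code_eq_iff _ _).1 m.2)⟩, fun m => ⟨⟨m.1, (isMax_iff _).1 m.2.1⟩,
      (code_eq_iff _ _).2 ((sub_iso_iff _ _).1 m.2.2)⟩, fun _ => rfl, fun _ => rfl⟩
  obtain ⟨e, he⟩ := exists_equiv_of_fibers
    (fun m : {m // Sink (lt' P) m} => code (res (lt' P) {v | v ≠ m.1}))
    (fun m : {m // Sink (lt' Q) m} => code (res (lt' Q) {v | v ≠ m.1})) (by
      intro c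
      by_cases hc : ∃ m : {m // Sink (lt' P) m}, code (res (lt' P) {v | v ≠ m.1}) = c
      · obtain ⟨m, rfl⟩ := hc
        have h1 := h6 (R := P) {y : P // y ≠ m.1}
        have h2 := h6 (R := Q) {y : P // y ≠ m.1}
        exact h1.trans ((h {y : P // y ≠ m.1}).1.trans h2.symm)
      · by_cases hc' : ∃ m : {m // Sink (lt' Q) m}, code (res (lt' Q) {v | v ≠ m.1}) = c
        · obtain ⟨m, rfl⟩ := hc'
          have h1 := h6 (R := P) {y : Q // y ≠ m.1}
          have h2 := h6 (R := Q) {y : Q // y ≠ m.1}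
          exact h1.trans ((h {y : Q // y ≠ m.1}).1.trans h2.symm)
        · push Not at hc hc'
          have i1 : IsEmpty {m : {m // Sink (lt' P) m} //
              code (res (lt' P) {v | v ≠ m.1}) = c} := ⟨fun m => hc m.1 m.2⟩
          have i2 : IsEmpty {m : {m // Sink (lt' Q) m} //
              code (res (lt' Q) {v | v ≠ m.1}) = c} := ⟨fun m => hc' m.1 m.2⟩
          rw [Nat.card_of_isEmpty, Nat.card_of_isEmpty])
  exact ⟨e, fun m => (code_eq_iff _ _).1 (he m).symm⟩

/-- matching the cards of the two enhanced decks -/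
lemma SameDecks.exists_enh [Finite P] [Finite Q] (h : SameDecks P Q) :
    ∃ e : {x // ¬ Sink (lt' P) x} ≃ {x // ¬ Sink (lt' Q) x}, ∀ x,
      Nonempty (del (lt' P) x.1 ≃r del (lt' Q) (e x).1) := by
  have h6 : ∀ {R : Type u} [PartialOrder R] [Finite R] (C : Type u) [PartialOrder C] [Finite C],
      Nat.card {m : {m // ¬ Sink (lt' R) m} // code (del (lt' R) m.1) = code (lt' C)} =
        EnhDeck R C := by
    intro R _ _ C _ _
    refine Nat.card_congr ⟨fun m => ⟨m.1.1, fun hm => m.1.2 ((isMax_iff _).1 hm),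
      (cut_iso_iff _ _).2 ((code_eq_iff _ _).1 m.2)⟩,
      fun m => ⟨⟨m.1, fun hm => m.2.1 ((isMax_iff _).2 hm)⟩,
      (code_eq_iff _ _).2 ((cut_iso_iff _ _).1 m.2.2)⟩, fun _ => rfl, fun _ => rfl⟩
  obtain ⟨e, he⟩ := exists_equiv_of_fibers
    (fun m : {m // ¬ Sink (lt' P) m} => code (del (lt' P) m.1))
    (fun m : {m // ¬ Sink (lt' Q) m} => code (del (lt' Q) m.1)) (by
      intro c
      by_cases hc : ∃ m : {m // ¬ Sink (lt' P) m}, code (del (lt' P) m.1) = c
      · obtain ⟨m, rfl⟩ := hc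
        have : Finite (Cut m.1) := inferInstanceAs (Finite P)
        have h1 := h6 (R := P) (Cut m.1)
        have h2 := h6 (R := Q) (Cut m.1)
        rw [lt'_cut] at h1 h2
        exact h1.trans ((h (Cut m.1)).2.trans h2.symm)
      · by_cases hc' : ∃ m : {m // ¬ Sink (lt' Q) m}, code (del (lt' Q) m.1) = c
        · obtain ⟨m, rfl⟩ := hc'
          have : Finite (Cut m.1) := inferInstanceAs (Finite Q)
          have h1 := h6 (R := P) (Cut m.1)
          have h2 := h6 (R := Q) (Cut m.1)
          rw [lt'_cut] at h1 h2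
          exact h1.trans ((h (Cut m.1)).2.trans h2.symm)
        · push Not at hc hc'
          have i1 : IsEmpty {m : {m // ¬ Sink (lt' P) m} // code (del (lt' P) m.1) = c} :=
            ⟨fun m => hc m.1 m.2⟩
          have i2 : IsEmpty {m : {m // ¬ Sink (lt' Q) m} // code (del (lt' Q) m.1) = c} :=
            ⟨fun m => hc' m.1 m.2⟩
          rw [Nat.card_of_isEmpty, Nat.card_of_isEmpty])
  exact ⟨e, fun m => (code_eq_iff _ _).1 (he m).symm⟩

/-- the numbers of copies of smaller ordered sets agree -/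
theorem copies_of_sameDecks [Finite P] [Finite Q] (h : SameDecks P Q) (C : Type u)
    [PartialOrder C] (hC : Nat.card C < Nat.card P) [Finite C] : Copies P C = Copies Q C := by
  obtain ⟨eM, hM⟩ := h.exists_max
  obtain ⟨eE, hE⟩ := h.exists_enh
  rw [copies_eq, copies_eq]
  exact subs_eq _ _ eM hM eE hE C (lt' C) hC

/-- ordered sets with the same two decks have the same number of elements -/
theorem card_of_sameDecks [Finite P] [Finite Q] (h : SameDecks P Q) :
    Nat.card P = Nat.card Q := by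
  obtain ⟨eM, -⟩ := h.exists_max
  obtain ⟨eE, -⟩ := h.exists_enh
  have h1 := Nat.card_congr eM
  have h2 := Nat.card_congr eE
  have h3 := card_split (fun _ : P => True) (Sink (lt' P))
  have h4 := card_split (fun _ : Q => True) (Sink (lt' Q))
  simp only [true_and] at h3 h4
  rw [h1, h2, ← h4] at h3
  have h5 : ∀ R : Type u, Nat.card {_x : R // True} = Nat.card R := fun R =>
    Nat.card_congr ⟨fun x => x.1, fun x => ⟨x, trivial⟩, fun _ => rfl, fun _ => rfl⟩
  rwa [h5, h5] at h3

/-- the cards of the deck are the copies with one element less -/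
lemma deck_eq_copies [Finite P] (C : Type u) [PartialOrder C] [Finite C]
    (hC : Nat.card C + 1 = Nat.card P) : Deck P C = Copies P C := by
  refine Nat.card_congr (Equiv.ofBijective (fun x => ⟨{y | y ≠ x.1}, x.2⟩) ⟨?_, ?_⟩)
  · rintro ⟨x, hx⟩ ⟨y, hy⟩ hxy
    have h1 : ({z | z ≠ x} : Set P) = {z | z ≠ y} := congrArg Subtype.val hxy
    refine Subtype.ext ?_
    by_contra hne
    have : x ∈ ({z | z ≠ y} : Set P) := hne
    rw [← h1] at this
    exact this rfl
  · rintro ⟨S, ⟨e⟩⟩
    have h1 : Nat.card S = Nat.card C := Nat.card_congr e.toEquiv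
    have h2 := Set.ncard_add_ncard_compl S
    rw [← Nat.card_coe_set_eq, h1] at h2
    have h3 : (Sᶜ).ncard = 1 := by omega
    obtain ⟨x, hx⟩ := Set.ncard_eq_one.1 h3
    have h4 : S = {y | y ≠ x} := by
      have : S = (Sᶜ)ᶜ := (compl_compl S).symm
      rw [this, hx]
      ext y
      simp
    subst h4
    exact ⟨⟨x, ⟨e⟩⟩, rfl⟩

/-- **The deck is determined** by the maximal deck and the enhanced deck. -/
theorem deck_of_sameDecks [Finite P] [Finite Q] (h : SameDecks P Q) (C : Type u)
    [PartialOrder C] [Finite C] : Deck P C = Deck Q C := by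
  have hcard := card_of_sameDecks h
  by_cases hC : Nat.card C + 1 = Nat.card P
  · rw [deck_eq_copies C hC, deck_eq_copies C (hC.trans hcard)]
    exact copies_of_sameDecks h C (by omega)
  · have key : ∀ {R : Type u} [PartialOrder R] [Finite R], Nat.card C + 1 ≠ Nat.card R →
        Deck R C = 0 := by
      intro R _ _ hR
      have : IsEmpty {x : R // Nonempty ({y : R // y ≠ x} ≃o C)} := by
        refine ⟨?_⟩
        rintro ⟨x, ⟨e⟩⟩
        apply hR
        have h1 : Nat.card {y : R // y ≠ x} = Nat.card C := Nat.card_congr e.toEquiv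
        have h2 := Set.ncard_add_ncard_compl ({x} : Set R)
        rw [Set.ncard_singleton] at h2
        have h3 : (({x} : Set R)ᶜ).ncard = Nat.card {y : R // y ≠ x} := by
          rw [← Nat.card_coe_set_eq]
          rfl
        omega
      exact Nat.card_of_isEmpty
    rw [key hC, key (hcard ▸ hC)]

end Pool.Agent.H22K
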