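import Pool.Agent.H22K.Degree

/-!
A condition on one vertex `x` under which one enhanced card and the numbers of predecessors of
the sinks determine a strict order.
-/

namespace Pool.Agent.H22K

universe u

variable {V V' : Type u}

/-- `r` is a strict order -/
structure SOrd (r : V → V → Prop) : Prop where
  irr : ∀ x, ¬ r x x
  tr : ∀ x y z, r x y → r y z → r x z

/-- putting back the arcs which leave `x` -/
lemma extend_iso {r : V → V → Prop} {r' : V' → V' → Prop} {x : V} {x' : V'}
    (φ : del r x ≃r del r' x') (hx : φ x = x') (h : ∀ y, r x y ↔ r' x' (φ y)) :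
    Nonempty (r ≃r r') := by
  refine ⟨⟨φ.toEquiv, ?_⟩⟩
  intro a b
  show r' (φ a) (φ b) ↔ r a b
  by_cases ha : a = x
  · subst ha
    rw [hx]
    exact (h b).symm
  · have h1 : del r' x' (φ a) (φ b) ↔ del r x a b := φ.map_rel_iff
    have h3 : φ a ≠ x' := fun h => ha (φ.injective (h.trans hx.symm))
    exact ⟨fun h2 => (h1.1 ⟨h2, h3⟩).1, fun h2 => (h1.2 ⟨h2, ha⟩).1⟩

/-- a permutation which preserves labels and maps one set to another -/
lemma exists_perm [Finite V] {X : Type*} (lab : V → X) (A B : Set V)
    (h : ∀ l, {v | v ∈ A ∧ lab v = l}.ncard = {v | v ∈ B ∧ lab v = l}.ncard) :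
    ∃ τ : V ≃ V, (∀ v, lab (τ v) = lab v) ∧ ∀ v, τ v ∈ B ↔ v ∈ A := by
  classical
  obtain ⟨τ, hτ⟩ := exists_equiv_of_fibers (fun v => (lab v, v ∈ A)) (fun v => (lab v, v ∈ B)) (by
    rintro ⟨l, p⟩
    have key : ∀ D : Set V, Nat.card {v // (lab v, v ∈ D) = (l, True)} =
        {v | v ∈ D ∧ lab v = l}.ncard := by
      intro D
      rw [← Nat.card_coe_set_eq]
      refine Nat.card_congr (Equiv.subtypeEquivRight fun v => ?_)
      simp only [Prod.mk.injEq, eq_iff_iff, iff_true, Set.mem_ofPred_eq]
      exact and_comm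
    have key2 : ∀ D : Set V, Nat.card {v // (lab v, v ∈ D) = (l, False)} +
        {v | v ∈ D ∧ lab v = l}.ncard = {v | lab v = l}.ncard := by
      intro D
      rw [← Nat.card_coe_set_eq, ← Nat.card_coe_set_eq]
      have h1 := card_split (fun v => lab v = l) (fun v => v ∈ D)
      have h2 : Nat.card {v // lab v = l ∧ v ∈ D} = Nat.card {v | v ∈ D ∧ lab v = l} :=
        Nat.card_congr (Equiv.subtypeEquivRight fun v => and_comm)
      have h3 : Nat.card {v // lab v = l ∧ ¬ v ∈ D} =
          Nat.card {v // (lab v, v ∈ D) = (l, False)} := by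
        refine Nat.card_congr (Equiv.subtypeEquivRight fun v => ?_)
        simp only [Prod.mk.injEq, eq_iff_iff, iff_false]
      have h4 : Nat.card {v // lab v = l} = Nat.card {v | lab v = l} := rfl
      omega
    by_cases hp : p
    · have hp' : p = True := eq_true hp
      subst hp'
      rw [key A, key B]
      exact h l
    · have hp' : p = False := eq_false hp
      subst hp'
      have h1 := key2 A
      have h2 := key2 B
      have h3 := h l
      omega)
  refine ⟨τ, fun v => ?_, fun v => ?_⟩
  · have := hτ v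
    simp only [Prod.mk.injEq] at this
    exact this.1
  · have := hτ v
    simp only [Prod.mk.injEq] at this
    exact iff_of_eq this.2

/-- counting by levels -/
lemma level_count [Finite V] (S : Set V) (c : V → ℕ) (x : V) (hx : x ∈ S) (U : Set V)
    (hU : U ⊆ S) (hxU : x ∉ U) (j : ℕ) [DecidablePred (· ∈ U)] :
    {v | v ∈ S ∧ c v ≤ j}.ncard = (if c x ≤ j then 1 else 0) +
      {v | v ∈ S ∧ v ≠ x ∧ c v + (if v ∈ U then 1 else 0) ≤ j}.ncard +
      {v | v ∈ U ∧ c v = j}.ncard := by
  classical
  have h1 : {v | v ∈ S ∧ c v ≤ j} = ({v | v = x ∧ c x ≤ j} ∪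
      {v | v ∈ S ∧ v ≠ x ∧ c v + (if v ∈ U then 1 else 0) ≤ j}) ∪ {v | v ∈ U ∧ c v = j} := by
    ext v
    simp only [Set.mem_ofPred_eq, Set.mem_union]
    constructor
    · rintro ⟨hv, hc⟩
      by_cases hvx : v = x
      · subst hvx
        exact Or.inl (Or.inl ⟨rfl, hc⟩)
      · by_cases hvU : v ∈ U
        · by_cases hcj : c v = j
          · exact Or.inr ⟨hvU, hcj⟩
          · refine Or.inl (Or.inr ⟨hv, hvx, ?_⟩)
            rw [if_pos hvU]
            omega
        · refine Or.inl (Or.inr ⟨hv, hvx, ?_⟩)
          rw [if_neg hvU]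
          omega
    · rintro ((⟨rfl, hc⟩ | ⟨hv, -, hc⟩) | ⟨hv, hc⟩)
      · exact ⟨hx, hc⟩
      · exact ⟨hv, by omega⟩
      · exact ⟨hU hv, hc.le⟩
  rw [h1, Set.ncard_union_eq, Set.ncard_union_eq]
  · congr 2
    split_ifs with hc
    · have : {v | v = x ∧ c x ≤ j} = {x} := by
        ext v
        simp [hc]
      rw [this, Set.ncard_singleton]
    · have : {v | v = x ∧ c x ≤ j} = (∅ : Set V) := by
        ext v
        simp [hc]
      rw [this, Set.ncard_empty]
  · rw [Set.disjoint_left]
    rintro v ⟨rfl, -⟩ ⟨-, h, -⟩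
    exact h rfl
  · rw [Set.disjoint_left]
    rintro v (⟨rfl, -⟩ | ⟨-, -, h⟩) ⟨hvU, hc⟩
    · exact hxU hvU
    · rw [if_pos hvU] at h
      omega

section

variable [Finite V] [Finite V'] {r : V → V → Prop} {r' : V' → V' → Prop} {x : V} {x' : V'}

omit [Finite V] in
lemma sink_del (r : V → V → Prop) (x v : V) : Sink (del r x) v ↔ Sink r v ∨ v = x := by
  constructor
  · intro h
    by_cases hv : v = x
    · exact Or.inr hv
    · exact Or.inl fun y hy => h y ⟨hy, hv⟩
  · rintro (h | rfl) y ⟨hy, hv⟩
    · exact h y hy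
    · exact hv rfl

open Classical in
lemma dn_del (r : V → V → Prop) (x v : V) :
    dn r v = dn (del r x) v + (if r x v then 1 else 0) := by
  have h1 := card_split (fun y => r y v) (fun y => y = x)
  have h2 : Nat.card {y // r y v ∧ ¬ y = x} = dn (del r x) v := rfl
  have h3 : Nat.card {y // r y v} = dn r v := rfl
  have h4 : Nat.card {y // r y v ∧ y = x} = if r x v then 1 else 0 := by
    split_ifs with h
    · rw [Nat.card_eq_one_iff_unique]
      exact ⟨⟨fun a b => Subtype.ext (a.2.2.trans b.2.2.symm)⟩, ⟨⟨x, h, rfl⟩⟩⟩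
    · have : IsEmpty {y // r y v ∧ y = x} := by
        refine ⟨?_⟩
        rintro ⟨y, hy, rfl⟩
        exact h hy
      exact Nat.card_of_isEmpty
  omega

omit [Finite V] [Finite V'] in
lemma kap_sub (hr' : SOrd r') (φ : del r x ≃r del r' x') {z v : V} (hz : φ z = x')
    (hv : r' x' (φ v)) {y : V} (hy : del r x y z) : del r x y v := by
  have h1 : del r' x' (φ y) (φ z) := φ.map_rel_iff.2 hy
  rw [hz] at h1
  exact φ.map_rel_iff.1 ⟨hr'.tr _ _ _ h1.1 hv, h1.2⟩

/-- the level structure of one card -/
theorem levels (hr : SOrd r) (hr' : SOrd r')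
    (hdn : ∀ j, {w | Sink r w ∧ dn r w ≤ j}.ncard = {w | Sink r' w ∧ dn r' w ≤ j}.ncard)
    (hx : ¬ Sink r x) (hx' : ¬ Sink r' x') (φ : del r x ≃r del r' x')
    (hup : up r x = up r' x') (hU : ∀ y, r x y → Sink r y) {z : V} (hz : φ z = x') :
    dn (del r x) z = dn (del r x) x ∧ (∀ v, r' x' (φ v) → Sink (del r x) v) ∧
      ∀ j, {v | r x v ∧ dn (del r x) v = j}.ncard =
        {v | r' x' (φ v) ∧ dn (del r x) v = j}.ncard := by
  classical
  have hφdn : ∀ v, dn (del r' x') (φ v) = dn (del r x) v := fun v => dn_iso φ v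
  have hφs : ∀ v, Sink (del r' x') (φ v) ↔ Sink (del r x) v := fun v => sink_iso φ v
  have hxS : Sink (del r x) x := (sink_del r x x).2 (Or.inr rfl)
  have hzS : Sink (del r x) z := by
    rw [← hφs, hz]
    exact (sink_del r' x' x').2 (Or.inr rfl)
  set K : Set V := {v | r' x' (φ v) ∧ Sink (del r x) v} with hK
  have hKz : z ∉ K := by
    rintro ⟨h, -⟩
    rw [hz] at h
    exact hr'.irr _ h
  -- the key identity
  have key : ∀ j, {v | r x v ∧ dn (del r x) v = j}.ncard + (if dn (del r x) x ≤ j then 1 else 0) =
      {v | v ∈ K ∧ dn (del r x) v = j}.ncard + (if dn (del r x) z ≤ j then 1 else 0) := by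
    intro j
    have h1 := level_count {v | Sink (del r x) v} (dn (del r x)) x hxS {v | r x v}
      (fun v hv => (sink_del r x v).2 (Or.inl (hU v hv))) (hr.irr x) j
    have h2 := level_count {v | Sink (del r x) v} (dn (del r x)) z hzS K (fun v hv => hv.2) hKz j
    have h3 : {v | v ∈ {v | Sink (del r x) v} ∧ v ≠ x ∧
        dn (del r x) v + (if v ∈ {v | r x v} then 1 else 0) ≤ j} = {w | Sink r w ∧ dn r w ≤ j} := by
      ext v
      simp only [Set.mem_ofPred_eq]
      rw [dn_del r x v]
      constructor
      · rintro ⟨h, hvx, h'⟩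
        exact ⟨((sink_del r x v).1 h).resolve_right hvx, h'⟩
      · rintro ⟨h, h'⟩
        exact ⟨(sink_del r x v).2 (Or.inl h), fun hvx => hx (hvx ▸ h), h'⟩
    have h4 : {v | v ∈ {v | Sink (del r x) v} ∧ v ≠ z ∧
        dn (del r x) v + (if v ∈ K then 1 else 0) ≤ j} =
        φ ⁻¹' {w | Sink r' w ∧ dn r' w ≤ j} := by
      ext v
      simp only [Set.mem_ofPred_eq, Set.mem_preimage]
      rw [dn_del r' x' (φ v), hφdn]
      have h5 : v ≠ z ↔ φ v ≠ x' := by
        constructor
        · intro h h'
          exact h (φ.injective (h'.trans hz.symm))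
        · rintro h rfl
          exact h hz
      constructor
      · rintro ⟨h, hvz, h'⟩
        refine ⟨((sink_del r' x' (φ v)).1 ((hφs v).2 h)).resolve_right (h5.1 hvz), ?_⟩
        by_cases hk : r' x' (φ v)
        · have hvK : v ∈ K := ⟨hk, h⟩
          rw [if_pos hvK] at h'
          rw [if_pos hk]
          exact h'
        · rw [if_neg hk]
          omega
      · rintro ⟨h, h'⟩
        have hvS : Sink (del r x) v := (hφs v).1 ((sink_del r' x' (φ v)).2 (Or.inl h))
        refine ⟨hvS, h5.2 (fun hv => ?_), ?_⟩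
        · rw [hv] at h
          exact hx' h
        by_cases hk : r' x' (φ v)
        · have hvK : v ∈ K := ⟨hk, hvS⟩
          rw [if_pos hvK]
          rw [if_pos hk] at h'
          exact h'
        · rw [if_neg (fun hv : v ∈ K => hk hv.1)]
          omega
    rw [h3] at h1
    rw [h4, Set.ncard_preimage_of_injective_subset_range φ.injective (by
      intro w _
      exact φ.surjective w)] at h2
    rw [hdn j] at h1
    simp only [Set.mem_ofPred_eq] at h1 h2
    omega
  have hsubx : ∀ v, r x v → dn (del r x) x ≤ dn (del r x) v := by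
    intro v hv
    refine Nat.card_le_card_of_injective (fun y : {y // (del r x) y x} =>
      (⟨y.1, hr.tr _ _ _ y.2.1 hv, y.2.2⟩ : {y // (del r x) y v})) ?_
    intro a b h
    exact Subtype.ext (congrArg (fun y : {y // (del r x) y v} => y.1) h)
  have hsubz : ∀ v, r' x' (φ v) → dn (del r x) z ≤ dn (del r x) v := by
    intro v hv
    refine Nat.card_le_card_of_injective (fun y : {y // (del r x) y z} =>
      (⟨y.1, kap_sub hr' φ hz hv y.2⟩ : {y // (del r x) y v})) ?_
    intro a b h
    exact Subtype.ext (congrArg (fun y : {y // (del r x) y v} => y.1) h)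
  have hzx : dn (del r x) z = dn (del r x) x := by
    rcases Nat.lt_trichotomy (dn (del r x) z) (dn (del r x) x) with h | h | h
    · exfalso
      have h1 := key (dn (del r x) z)
      rw [if_neg (by omega), if_pos le_rfl] at h1
      have h2 : {v | r x v ∧ dn (del r x) v = dn (del r x) z} = (∅ : Set V) := by
        ext v
        simp only [Set.mem_ofPred_eq, Set.mem_empty_iff_false, iff_false, not_and]
        intro hv h3
        have := hsubx v hv
        omega
      rw [h2, Set.ncard_empty] at h1
      omega
    · exact h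
    · exfalso
      have h1 := key (dn (del r x) x)
      rw [if_pos le_rfl, if_neg (by omega)] at h1
      have h2 : {v | v ∈ K ∧ dn (del r x) v = dn (del r x) x} = (∅ : Set V) := by
        ext v
        simp only [Set.mem_ofPred_eq, Set.mem_empty_iff_false, iff_false, not_and]
        intro hv h3
        have := hsubz v hv.1
        omega
      rw [h2, Set.ncard_empty] at h1
      omega
  have key2 : ∀ j, {v | r x v ∧ dn (del r x) v = j}.ncard = {v | v ∈ K ∧ dn (del r x) v = j}.ncard := by
    intro j
    have := key j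
    rw [hzx] at this
    omega
  have hKall : ∀ v, r' x' (φ v) → v ∈ K := by
    obtain ⟨e, -⟩ := exists_equiv_of_fibers (fun v : {v | r x v} => dn (del r x) v.1)
      (fun v : K => dn (del r x) v.1) (by
        intro j
        have h1 : Nat.card {v : {v | r x v} // dn (del r x) v.1 = j} =
            {v | r x v ∧ dn (del r x) v = j}.ncard := by
          rw [← Nat.card_coe_set_eq]
          exact Nat.card_congr ⟨fun v => ⟨v.1.1, v.1.2, v.2⟩, fun v => ⟨⟨v.1, v.2.1⟩, v.2.2⟩,
            fun _ => rfl, fun _ => rfl⟩
        have h2 : Nat.card {v : K // dn (del r x) v.1 = j} = {v | v ∈ K ∧ dn (del r x) v = j}.ncard := by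
          rw [← Nat.card_coe_set_eq]
          exact Nat.card_congr ⟨fun v => ⟨v.1.1, v.1.2, v.2⟩, fun v => ⟨⟨v.1, v.2.1⟩, v.2.2⟩,
            fun _ => rfl, fun _ => rfl⟩
        exact h1.trans ((key2 j).trans h2.symm))
    have h1 : K.ncard = up r x := by
      rw [← Nat.card_coe_set_eq]
      exact (Nat.card_congr e).symm
    have h2 : {v | r' x' (φ v)}.ncard = up r' x' := by
      rw [← Nat.card_coe_set_eq]
      exact Nat.card_congr (φ.toEquiv.subtypeEquiv fun v => Iff.rfl)
    have h3 : K = {v | r' x' (φ v)} :=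
      Set.eq_of_subset_of_ncard_le (fun v hv => hv.1) (by rw [h1, h2, hup])
    intro v hv
    rw [h3]
    exact hv
  refine ⟨hzx, fun v hv => (hKall v hv).2, fun j => (key2 j).trans ?_⟩
  congr 1
  ext v
  exact ⟨fun h => ⟨h.1.1, h.2⟩, fun h => ⟨hKall v h.1, h.2⟩⟩

omit [Finite V] [Finite V'] in
/-- an isomorphism from a permutation which preserves the predecessors of the sinks -/
lemma iso_of_perm {C : V → V → Prop} (τ : V ≃ V) (h1 : ∀ v, ¬ Sink C v → τ v = v)
    (h2 : ∀ v, Sink C v → Sink C (τ v)) (h3 : ∀ v, Sink C v → ∀ y, C y (τ v) ↔ C y v) :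
    ∀ a b, C (τ a) (τ b) ↔ C a b := by
  intro a b
  have h4 : ∀ a b, C a (τ b) ↔ C a b := by
    intro a b
    by_cases hb : Sink C b
    · exact h3 b hb a
    · rw [h1 b hb]
  rw [h4]
  by_cases ha : Sink C a
  · exact ⟨fun h => absurd h (h2 a ha b), fun h => absurd h (ha b)⟩
  · rw [h1 a ha]

omit [Finite V'] in
/-- sets of the same size -/
lemma low_eq (C : V → V → Prop) {a b : V} (h : ∀ y, C y a → C y b) (hc : dn C b = dn C a) :
    ∀ y, C y b ↔ C y a := by
  have h1 : {y | C y a} = {y | C y b} := by
    refine Set.eq_of_subset_of_ncard_le h ?_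
    rw [← Nat.card_coe_set_eq, ← Nat.card_coe_set_eq]
    exact hc.le
  intro y
  have h2 : y ∈ {y | C y a} ↔ y ∈ {y | C y b} := by rw [h1]
  exact h2.symm

/-- the second stage: `x` is mapped to `x'` -/
theorem stage_two (hr : SOrd r) (hr' : SOrd r')
    (hdn : ∀ j, {w | Sink r w ∧ dn r w ≤ j}.ncard = {w | Sink r' w ∧ dn r' w ≤ j}.ncard)
    (hx : ¬ Sink r x) (hx' : ¬ Sink r' x') (φ : del r x ≃r del r' x')
    (hup : up r x = up r' x') (hU : ∀ y, r x y → Sink r y) (hz : φ x = x')
    (hB : ∀ v v', r x v → Sink r v' → ¬ r x v' → (∀ y, r y x → r y v') →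
      dn r v' + 1 = dn r v → ∀ y, r y v' ↔ (r y v ∧ y ≠ x)) : Nonempty (r ≃r r') := by
  classical
  obtain ⟨-, hKS, hlev⟩ := levels hr hr' hdn hx hx' φ hup hU hz
  have hφs : ∀ v, Sink (del r' x') (φ v) ↔ Sink (del r x) v := fun v => sink_iso φ v
  have hUS : ∀ v, r x v → Sink (del r x) v := fun v hv => (sink_del r x v).2 (Or.inl (hU v hv))
  have hdnx : dn r x = dn (del r x) x := by
    rw [dn_del r x x, if_neg (hr.irr x), add_zero]
  have hUL : ∀ v, r x v → ∀ y, del r x y x → del r x y v := fun v hv y hy =>
    ⟨hr.tr _ _ _ hy.1 hv, hy.2⟩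
  have hKL : ∀ v, r' x' (φ v) → ∀ y, del r x y x → del r x y v := fun v hv y hy =>
    kap_sub hr' φ hz hv hy
  have hKx : ¬ r' x' (φ x) := by
    rw [hz]
    exact hr'.irr _
  -- the members of the two sets at the level `j`
  have hfib : ∀ j, (∀ v, dn (del r x) v = j → (r x v ↔ r' x' (φ v))) ∨
      ∃ L : Set V, ∀ v, dn (del r x) v = j → (r x v ∨ r' x' (φ v)) →
        {y | del r x y v} = L := by
    intro j
    by_cases hjx : dn (del r x) x = j
    · right
      refine ⟨{y | del r x y x}, ?_⟩
      rintro v hv (h | h)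
      · ext y
        exact low_eq (del r x) (hUL v h) (hv.trans hjx.symm) y
      · ext y
        exact low_eq (del r x) (hKL v h) (hv.trans hjx.symm) y
    by_cases hsub : ∀ v, dn (del r x) v = j → r' x' (φ v) → r x v
    · left
      have h1 : {v | r' x' (φ v) ∧ dn (del r x) v = j} = {v | r x v ∧ dn (del r x) v = j} := by
        refine Set.eq_of_subset_of_ncard_le ?_ (hlev j).le
        rintro v ⟨h, hv⟩
        exact ⟨hsub v hv h, hv⟩
      intro v hv
      constructor
      · intro h
        have h2 : v ∈ {v | r x v ∧ dn (del r x) v = j} := ⟨h, hv⟩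
        rw [← h1] at h2
        exact h2.1
      · exact hsub v hv
    · right
      -- a vertex of the second set only, compared with the vertices of the first set
      have hcmp : ∀ v', dn (del r x) v' = j → r' x' (φ v') → ¬ r x v' → ∀ v,
          dn (del r x) v = j → r x v → {y | del r x y v'} = {y | del r x y v} := by
        intro v' hv' hk hi v hv hxv
        have hvx : v' ≠ x := by
          rintro rfl
          exact hjx hv'
        have hsv' : Sink r v' := ((sink_del r x v').1 (hKS v' hk)).resolve_right hvx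
        have h1 : dn r v' = j := by
          rw [dn_del r x v', if_neg hi, hv', add_zero]
        have h2 : dn r v = j + 1 := by
          rw [dn_del r x v, if_pos hxv, hv]
        have h3 := hB v v' hxv hsv' hi (fun y hy => (hKL v' hk y ⟨hy, fun h => by
          subst h
          exact hr.irr _ hy⟩).1) (by omega)
        ext y
        constructor
        · rintro ⟨h4, h5⟩
          exact ⟨((h3 y).1 h4).1, h5⟩
        · rintro ⟨h4, h5⟩
          exact ⟨(h3 y).2 ⟨h4, h5⟩, h5⟩
      push Not at hsub
      obtain ⟨v', hv', hk', hi'⟩ := hsub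
      have hne : {v | r x v ∧ dn (del r x) v = j}.Nonempty := by
        have h1 : 0 < {v | r' x' (φ v) ∧ dn (del r x) v = j}.ncard :=
          (Set.ncard_pos).2 ⟨v', hk', hv'⟩
        rw [← hlev j] at h1
        exact (Set.ncard_pos).1 h1
      obtain ⟨v, hxv, hv⟩ := hne
      refine ⟨{y | del r x y v'}, ?_⟩
      intro w hw hw'
      by_cases hwi : r x w
      · exact (hcmp v' hv' hk' hi' w hw hwi).symm
      · have hwk : r' x' (φ w) := hw'.resolve_left hwi
        rw [hcmp w hw hwk hwi v hv hxv, hcmp v' hv' hk' hi' v hv hxv]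
  -- the permutation
  obtain ⟨τ, hτ1, hτ2⟩ := exists_perm
    (fun v => if Sink (del r x) v then (Sum.inl ({y | del r x y v}, v = x) : (Set V × Prop) ⊕ V)
      else Sum.inr v) {v | r x v} {v | r' x' (φ v)} (by
    intro l
    rcases l with ⟨L, p⟩ | w
    swap
    · have h1 : {v | v ∈ {v | r x v} ∧ (if Sink (del r x) v then
          (Sum.inl ({y | del r x y v}, v = x) : (Set V × Prop) ⊕ V) else Sum.inr v) =
            Sum.inr w} = ∅ := by
        ext v
        simp only [Set.mem_ofPred_eq, Set.mem_empty_iff_false, iff_false, not_and]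
        intro hv
        rw [if_pos (hUS v hv)]
        exact Sum.inl_ne_inr
      have h2 : {v | v ∈ {v | r' x' (φ v)} ∧ (if Sink (del r x) v then
          (Sum.inl ({y | del r x y v}, v = x) : (Set V × Prop) ⊕ V) else Sum.inr v) =
            Sum.inr w} = ∅ := by
        ext v
        simp only [Set.mem_ofPred_eq, Set.mem_empty_iff_false, iff_false, not_and]
        intro hv
        rw [if_pos (hKS v hv)]
        exact Sum.inl_ne_inr
      rw [h1, h2]
    · have h1 : {v | v ∈ {v | r x v} ∧ (if Sink (del r x) v then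
          (Sum.inl ({y | del r x y v}, v = x) : (Set V × Prop) ⊕ V) else Sum.inr v) =
            Sum.inl (L, p)} = {v | r x v ∧ {y | del r x y v} = L ∧ (v = x) = p} := by
        ext v
        simp only [Set.mem_ofPred_eq]
        refine and_congr_right fun hv => ?_
        rw [if_pos (hUS v hv), Sum.inl.injEq, Prod.mk.injEq]
      have h2 : {v | v ∈ {v | r' x' (φ v)} ∧ (if Sink (del r x) v then
          (Sum.inl ({y | del r x y v}, v = x) : (Set V × Prop) ⊕ V) else Sum.inr v) =
            Sum.inl (L, p)} = {v | r' x' (φ v) ∧ {y | del r x y v} = L ∧ (v = x) = p} := by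
        ext v
        simp only [Set.mem_ofPred_eq]
        refine and_congr_right fun hv => ?_
        rw [if_pos (hKS v hv), Sum.inl.injEq, Prod.mk.injEq]
      rw [h1, h2]
      have hL : ∀ v, {y | del r x y v} = L → dn (del r x) v = L.ncard := by
        rintro v rfl
        exact Nat.card_coe_set_eq _
      by_cases hp : p
      · have hp' : p = True := eq_true hp
        subst hp'
        have h3 : {v | r x v ∧ {y | del r x y v} = L ∧ (v = x) = True} = ∅ := by
          ext v
          simp only [Set.mem_ofPred_eq, Set.mem_empty_iff_false, iff_false, not_and, eq_iff_iff,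
            iff_true]
          rintro hv - rfl
          exact hr.irr _ hv
        have h4 : {v | r' x' (φ v) ∧ {y | del r x y v} = L ∧ (v = x) = True} = ∅ := by
          ext v
          simp only [Set.mem_ofPred_eq, Set.mem_empty_iff_false, iff_false, not_and, eq_iff_iff,
            iff_true]
          rintro hv - rfl
          exact hKx hv
        rw [h3, h4]
      · have hp' : p = False := eq_false hp
        subst hp'
        have h3 : {v | r x v ∧ {y | del r x y v} = L ∧ (v = x) = False} =
            {v | r x v ∧ {y | del r x y v} = L} := by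
          ext v
          simp only [Set.mem_ofPred_eq, eq_iff_iff, iff_false]
          refine ⟨fun h => ⟨h.1, h.2.1⟩, fun h => ⟨h.1, h.2, ?_⟩⟩
          rintro rfl
          exact hr.irr _ h.1
        have h4 : {v | r' x' (φ v) ∧ {y | del r x y v} = L ∧ (v = x) = False} =
            {v | r' x' (φ v) ∧ {y | del r x y v} = L} := by
          ext v
          simp only [Set.mem_ofPred_eq, eq_iff_iff, iff_false]
          refine ⟨fun h => ⟨h.1, h.2.1⟩, fun h => ⟨h.1, h.2, ?_⟩⟩
          rintro rfl
          exact hKx h.1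
        rw [h3, h4]
        rcases hfib L.ncard with h | ⟨L₀, h⟩
        · congr 1
          ext v
          simp only [Set.mem_ofPred_eq]
          constructor
          · rintro ⟨h5, h6⟩
            exact ⟨(h v (hL v h6)).1 h5, h6⟩
          · rintro ⟨h5, h6⟩
            exact ⟨(h v (hL v h6)).2 h5, h6⟩
        · by_cases hLL : L = L₀
          · have h5 : {v | r x v ∧ {y | del r x y v} = L} =
                {v | r x v ∧ dn (del r x) v = L.ncard} := by
              ext v
              exact ⟨fun h' => ⟨h'.1, hL v h'.2⟩, fun h' => ⟨h'.1, by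
                rw [hLL]; exact h v h'.2 (Or.inl h'.1)⟩⟩
            have h6 : {v | r' x' (φ v) ∧ {y | del r x y v} = L} =
                {v | r' x' (φ v) ∧ dn (del r x) v = L.ncard} := by
              ext v
              exact ⟨fun h' => ⟨h'.1, hL v h'.2⟩, fun h' => ⟨h'.1, by
                rw [hLL]; exact h v h'.2 (Or.inr h'.1)⟩⟩
            rw [h5, h6]
            exact hlev _
          · have h5 : {v | r x v ∧ {y | del r x y v} = L} = ∅ := by
              ext v
              simp only [Set.mem_ofPred_eq, Set.mem_empty_iff_false, iff_false, not_and]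
              intro h7 h8
              exact hLL (h8.symm.trans (h v (hL v h8) (Or.inl h7)))
            have h6 : {v | r' x' (φ v) ∧ {y | del r x y v} = L} = ∅ := by
              ext v
              simp only [Set.mem_ofPred_eq, Set.mem_empty_iff_false, iff_false, not_and]
              intro h7 h8
              exact hLL (h8.symm.trans (h v (hL v h8) (Or.inr h7)))
            rw [h5, h6])
  have hs : ∀ v, Sink (del r x) v → Sink (del r x) (τ v) ∧
      {y | del r x y (τ v)} = {y | del r x y v} ∧ (τ v = x ↔ v = x) := by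
    intro v hv
    have h1 := hτ1 v
    by_cases hτv : Sink (del r x) (τ v)
    · rw [if_pos hv, if_pos hτv, Sum.inl.injEq, Prod.mk.injEq] at h1
      exact ⟨hτv, h1.1, iff_of_eq h1.2⟩
    · rw [if_pos hv, if_neg hτv] at h1
      exact absurd h1.symm Sum.inl_ne_inr
  have hns : ∀ v, ¬ Sink (del r x) v → τ v = v := by
    intro v hv
    have h1 := hτ1 v
    by_cases hτv : Sink (del r x) (τ v)
    · rw [if_neg hv, if_pos hτv] at h1
      exact absurd h1 Sum.inl_ne_inr
    · rw [if_neg hv, if_neg hτv, Sum.inr.injEq] at h1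
      exact h1
  have hxS : Sink (del r x) x := (sink_del r x x).2 (Or.inr rfl)
  have hτx : τ x = x := ((hs x hxS).2.2).2 rfl
  have hperm := iso_of_perm (C := del r x) τ hns (fun v hv => (hs v hv).1)
    (fun v hv y => by
      have h1 : y ∈ {y | del r x y (τ v)} ↔ y ∈ {y | del r x y v} := by rw [(hs v hv).2.1]
      exact h1)
  let ψ : del r x ≃r del r' x' := (⟨τ, fun {a b} => hperm a b⟩ : del r x ≃r del r x).trans φ
  have hψ : ∀ v, ψ v = φ (τ v) := fun v => rfl
  refine extend_iso ψ ?_ ?_
  · rw [hψ, hτx, hz]
  · intro y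
    rw [hψ]
    exact (hτ2 y).symm

/-- **One card is enough.** Let `x` be a vertex all of whose successors are sinks such that
(A) a sink `z` which is not a successor of `x` and has as many predecessors as `x` has the same
predecessors as `x`, or fewer sinks other than `z` lie above all predecessors of `z` than `x` has
successors; (B) if a sink `v'` which is not a successor of `x` lies above all predecessors of `x`
and has one predecessor less than some successor `v` of `x`, then the predecessors of `v'` are
those of `v` without `x`. Then the card of `x` and the numbers of predecessors of the sinks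
determine the strict order. -/
theorem single_card (hr : SOrd r) (hr' : SOrd r')
    (hdn : ∀ j, {w | Sink r w ∧ dn r w ≤ j}.ncard = {w | Sink r' w ∧ dn r' w ≤ j}.ncard)
    (hx : ¬ Sink r x) (hx' : ¬ Sink r' x') (φ : del r x ≃r del r' x')
    (hup : up r x = up r' x') (hU : ∀ y, r x y → Sink r y)
    (hA : ∀ z, Sink r z → ¬ r x z → dn r z = dn r x → (∀ y, r y z ↔ r y x) ∨
      {v | Sink r v ∧ v ≠ z ∧ ∀ y, r y z → r y v}.ncard < up r x)
    (hB : ∀ v v', r x v → Sink r v' → ¬ r x v' → (∀ y, r y x → r y v') →
      dn r v' + 1 = dn r v → ∀ y, r y v' ↔ (r y v ∧ y ≠ x)) : Nonempty (r ≃r r') := by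
  classical
  obtain ⟨z, hz⟩ : ∃ z, φ z = x' := φ.surjective x'
  obtain ⟨hzx, hKS, hlev⟩ := levels hr hr' hdn hx hx' φ hup hU hz
  have hxS : Sink (del r x) x := (sink_del r x x).2 (Or.inr rfl)
  have hzS : Sink (del r x) z := by
    rw [← sink_iso φ z, hz]
    exact (sink_del r' x' x').2 (Or.inr rfl)
  have hdnx : dn r x = dn (del r x) x := by
    rw [dn_del r x x, if_neg (hr.irr x), add_zero]
  -- `z` and `x` have the same predecessors in the card
  have hL : ∀ y, del r x y z ↔ del r x y x := by
    by_cases hxz : r x z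
    · exact low_eq (del r x) (fun y hy => ⟨hr.tr _ _ _ hy.1 hxz, hy.2⟩) hzx
    by_cases hzeq : z = x
    · subst hzeq
      exact fun y => Iff.rfl
    have hsz : Sink r z := ((sink_del r x z).1 hzS).resolve_right hzeq
    have hdz : dn r z = dn r x := by
      rw [dn_del r x z, if_neg hxz, add_zero, hzx, hdnx]
    rcases hA z hsz hxz hdz with h | h
    · intro y
      show r y z ∧ y ≠ x ↔ r y x ∧ y ≠ x
      rw [h y]
    · by_cases hKx : r' x' (φ x)
      · intro y
        exact (low_eq (del r x) (fun y hy => kap_sub hr' φ hz hKx hy) hzx.symm y).symm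
      · exfalso
        have h2 : {v | r' x' (φ v)}.ncard = up r' x' := by
          rw [← Nat.card_coe_set_eq]
          exact Nat.card_congr (φ.toEquiv.subtypeEquiv fun v => Iff.rfl)
        have h3 : {v | r' x' (φ v)} ⊆ {v | Sink r v ∧ v ≠ z ∧ ∀ y, r y z → r y v} := by
          intro v hv
          have hv' : r' x' (φ v) := hv
          have hvx : v ≠ x := by
            rintro rfl
            exact hKx hv'
          refine ⟨((sink_del r x v).1 (hKS v hv')).resolve_right hvx, ?_, ?_⟩
          · rintro rfl
            rw [hz] at hv'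
            exact hr'.irr _ hv'
          · intro y hy
            have hyx : y ≠ x := by
              rintro rfl
              exact hxz hy
            exact (kap_sub hr' φ hz hv' ⟨hy, hyx⟩).1
        have h4 := Set.ncard_le_ncard h3
        omega
  -- exchange `x` and `z`
  have hperm := iso_of_perm (C := del r x) (Equiv.swap x z)
    (fun v hv => Equiv.swap_apply_of_ne_of_ne (by rintro rfl; exact hv hxS)
      (by rintro rfl; exact hv hzS))
    (fun v hv => by
      by_cases h1 : v = x
      · rw [h1, Equiv.swap_apply_left]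
        exact hzS
      · by_cases h2 : v = z
        · rw [h2, Equiv.swap_apply_right]
          exact hxS
        · rw [Equiv.swap_apply_of_ne_of_ne h1 h2]
          exact hv)
    (fun v hv y => by
      by_cases h1 : v = x
      · rw [h1, Equiv.swap_apply_left]
        exact hL y
      · by_cases h2 : v = z
        · rw [h2, Equiv.swap_apply_right]
          exact (hL y).symm
        · rw [Equiv.swap_apply_of_ne_of_ne h1 h2])
  let ψ : del r x ≃r del r' x' :=
    (⟨Equiv.swap x z, fun {a b} => hperm a b⟩ : del r x ≃r del r x).trans φ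
  have hψ : ψ x = x' := by
    show φ (Equiv.swap x z x) = x'
    rw [Equiv.swap_apply_left]
    exact hz
  exact stage_two hr hr' hdn hx hx' ψ hup hU hψ hB

end

end Pool.Agent.H22K
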