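import Pool.Agent.H22K.Single

/-!
Strict orders with at most two sinks.
-/

namespace Pool.Agent.H22K

universe u

variable {V V' : Type u} [Finite V] [Finite V'] {r : V → V → Prop} {r' : V' → V' → Prop}

/-- `x` is not a sink, but all of its successors are sinks -/
def Top (r : V → V → Prop) (x : V) : Prop := ¬ Sink r x ∧ ∀ y, r x y → Sink r y

omit [Finite V'] in
lemma dn_lt (hr : SOrd r) {x y : V} (h : r x y) : dn r x < dn r y := by
  have h1 : {v | r v x} ⊂ {v | r v y} := by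
    refine ⟨fun v hv => hr.tr _ _ _ hv h, fun h2 => hr.irr x (h2 h)⟩
  have h2 := Set.ncard_lt_ncard h1
  rwa [← Nat.card_coe_set_eq, ← Nat.card_coe_set_eq] at h2

omit [Finite V'] in
/-- every vertex which is not a sink is a top vertex or lies below one -/
lemma exists_top (hr : SOrd r) {y : V} (hy : ¬ Sink r y) : ∃ x, Top r x ∧ (y = x ∨ r y x) := by
  obtain ⟨x, ⟨hx1, hx2⟩, hmax⟩ := Set.exists_max_image {x | ¬ Sink r x ∧ (y = x ∨ r y x)}
    (fun x => dn r x) (Set.toFinite _) ⟨y, hy, Or.inl rfl⟩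
  refine ⟨x, ⟨hx1, fun v hv => ?_⟩, hx2⟩
  by_contra hvs
  have h1 : y = v ∨ r y v := by
    rcases hx2 with rfl | h
    · exact Or.inr hv
    · exact Or.inr (hr.tr _ _ _ h hv)
  have h2 := hmax v ⟨hvs, h1⟩
  have h3 := dn_lt hr hv
  omega

omit [Finite V'] in
lemma dn_le_of_sub {A : Set V} {x : V} (h : ∀ y, r y x → y ∈ A) : dn r x ≤ A.ncard := by
  have h1 : {y | r y x}.ncard ≤ A.ncard := Set.ncard_le_ncard h
  rwa [← Nat.card_coe_set_eq] at h1

/-- the case in which two top vertices lie below different sinks -/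
lemma two_case (hr : SOrd r) (hr' : SOrd r')
    (hdn : ∀ j, {w | Sink r w ∧ dn r w ≤ j}.ncard = {w | Sink r' w ∧ dn r' w ≤ j}.ncard)
    (eE : {x // ¬ Sink r x} ≃ {x // ¬ Sink r' x})
    (hE : ∀ x, Nonempty (del r x.1 ≃r del r' (eE x).1))
    (hup : ∀ x, up r x.1 = up r' (eE x).1) {a b : V}
    (hab : ∀ v, Sink r v → v = a ∨ v = b) {xa xb : V} (_ha : Top r xa) (hb : Top r xb)
    (h1 : r xa a) (h2 : ¬ r xa b) (h3 : r xb b) (h4 : ¬ r xb a) (hne : dn r a + 1 ≠ dn r b) :
    Nonempty (r ≃r r') := by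
  obtain ⟨φ⟩ := hE ⟨xb, hb.1⟩
  refine single_card hr hr' hdn hb.1 (eE ⟨xb, hb.1⟩).2 φ (hup ⟨xb, hb.1⟩) hb.2 ?_ ?_
  · intro z hz hxz _
    right
    have hza : z = a := (hab z hz).resolve_right (by rintro rfl; exact hxz h3)
    subst hza
    have h5 : {v | Sink r v ∧ v ≠ z ∧ ∀ y, r y z → r y v} = ∅ := by
      ext v
      simp only [Set.mem_ofPred_eq, Set.mem_empty_iff_false, iff_false, not_and]
      intro hv hvz hall
      have hvb : v = b := (hab v hv).resolve_left hvz
      subst hvb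
      exact h2 (hall xa h1)
    rw [h5, Set.ncard_empty]
    exact up_pos hb.1
  · intro v v' hv hv' hxv' _ hd
    exfalso
    have hvb : v = b := (hab v (hb.2 v hv)).resolve_left (by rintro rfl; exact h4 hv)
    have hva : v' = a := (hab v' hv').resolve_right (by rintro rfl; exact hxv' h3)
    subst hvb hva
    exact hne hd

/-- the case in which one sink lies above all other vertices which are not sinks and there is only
one top vertex -/
lemma one_top (hr : SOrd r) (hr' : SOrd r')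
    (hdn : ∀ j, {w | Sink r w ∧ dn r w ≤ j}.ncard = {w | Sink r' w ∧ dn r' w ≤ j}.ncard)
    (eE : {x // ¬ Sink r x} ≃ {x // ¬ Sink r' x})
    (hE : ∀ x, Nonempty (del r x.1 ≃r del r' (eE x).1))
    (hup : ∀ x, up r x.1 = up r' (eE x).1) {a b : V}
    (hab : ∀ v, Sink r v → v = a ∨ v = b) (hdom : ∀ y, ¬ Sink r y → r y a) {x : V}
    (hx : Top r x) (hxb : ¬ r x b) (hone : ∀ y, Top r y → y = x) : Nonempty (r ≃r r') := by
  have hbelow : ∀ y, ¬ Sink r y → y ≠ x → r y x := by
    intro y hy hyx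
    obtain ⟨x₁, h1, h2⟩ := exists_top hr hy
    rw [hone x₁ h1] at h2
    exact h2.resolve_left hyx
  obtain ⟨φ⟩ := hE ⟨x, hx.1⟩
  refine single_card hr hr' hdn hx.1 (eE ⟨x, hx.1⟩).2 φ (hup ⟨x, hx.1⟩) hx.2 ?_ ?_
  · intro z hz hxz hd
    left
    have hzb : z = b := (hab z hz).resolve_left (by rintro rfl; exact hxz (hdom x hx.1))
    subst hzb
    refine fun y => (low_eq r (fun y hy => ?_) hd.symm y).symm
    exact hbelow y (fun hs => hs z hy) (by rintro rfl; exact hxb hy)
  · intro v v' hv hv' hxv' hall _ y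
    have hva : v = a := (hab v (hx.2 v hv)).resolve_right (by rintro rfl; exact hxb hv)
    have hvb : v' = b := (hab v' hv').resolve_left (by rintro rfl; exact hxv' (hdom x hx.1))
    subst hva hvb
    constructor
    · intro hy
      exact ⟨hdom y (fun hs => hs v' hy), by rintro rfl; exact hxv' hy⟩
    · rintro ⟨hy, hyx⟩
      exact hall y (hbelow y (fun hs => hs v hy) hyx)

/-- the case in which one sink lies above all other vertices which are not sinks and there are two
top vertices -/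
lemma many_top (hr : SOrd r) (_hr' : SOrd r')
    (hdn : ∀ j, {w | Sink r w ∧ dn r w ≤ j}.ncard = {w | Sink r' w ∧ dn r' w ≤ j}.ncard)
    (eE : {x // ¬ Sink r x} ≃ {x // ¬ Sink r' x})
    (hE : ∀ x, Nonempty (del r x.1 ≃r del r' (eE x).1))
    (hup : ∀ x, up r x.1 = up r' (eE x).1) {a b : V} (hne : a ≠ b)
    (hab : ∀ v, Sink r v ↔ v = a ∨ v = b) (hdom : ∀ y, ¬ Sink r y → r y a)
    (hxb : ∀ x, Top r x → ¬ r x b) {x₁ x₂ : V} (hx₁ : Top r x₁) (hx₂ : Top r x₂)
    (h12 : x₁ ≠ x₂) : Nonempty (r ≃r r') := by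
  classical
  have ha : Sink r a := (hab a).2 (Or.inl rfl)
  have hb : Sink r b := (hab b).2 (Or.inr rfl)
  -- the sizes
  have hk : {v | ¬ Sink r v}.ncard = {v | ¬ Sink r' v}.ncard := by
    rw [← Nat.card_coe_set_eq, ← Nat.card_coe_set_eq]
    exact Nat.card_congr eE
  have hdna : dn r a = {v | ¬ Sink r v}.ncard := by
    have h1 : {y | r y a} = {v | ¬ Sink r v} := by
      ext y
      exact ⟨fun h hs => hs a h, fun h => hdom y h⟩
    rw [← h1, ← Nat.card_coe_set_eq]
    rfl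
  have hpos : 0 < {v | ¬ Sink r v}.ncard := (Set.ncard_pos).2 ⟨x₁, hx₁.1⟩
  -- the sinks of `r'`
  have hsinks : {w | Sink r w} = {a, b} := by
    ext v
    exact hab v
  have hsc' : {w | Sink r' w}.ncard = 2 := by
    have hbig : ∀ {U : Type u} [Finite U] (s : U → U → Prop) (j : ℕ), Nat.card U ≤ j →
        {w | Sink s w ∧ dn s w ≤ j} = {w | Sink s w} := by
      intro U _ s j hj
      ext w
      refine ⟨fun h => h.1, fun h => ⟨h, le_trans ?_ hj⟩⟩
      exact Nat.card_le_card_of_injective (fun y : {y // s y w} => y.1) Subtype.val_injective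
    have h1 := hdn (Nat.card V + Nat.card V')
    rw [hbig r _ (by omega), hbig r' _ (by omega), hsinks, Set.ncard_pair hne] at h1
    exact h1.symm
  obtain ⟨a', ha', hdom'⟩ : ∃ a', Sink r' a' ∧ ∀ y, ¬ Sink r' y → r' y a' := by
    have h1 := hdn ({v | ¬ Sink r v}.ncard - 1)
    have h2 : {w | Sink r w ∧ dn r w ≤ {v | ¬ Sink r v}.ncard - 1} ⊆ {b} := by
      rintro w ⟨hw, hd⟩
      rcases (hab w).1 hw with rfl | h
      · rw [hdna] at hd
        omega
      · exact h
    have h3 := Set.ncard_le_ncard h2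
    rw [Set.ncard_singleton, h1] at h3
    have h4 : ∃ a', Sink r' a' ∧ ¬ dn r' a' ≤ {v | ¬ Sink r v}.ncard - 1 := by
      by_contra hcon
      push Not at hcon
      have h5 : {w | Sink r' w ∧ dn r' w ≤ {v | ¬ Sink r v}.ncard - 1} = {w | Sink r' w} := by
        ext w
        exact ⟨fun h => h.1, fun h => ⟨h, hcon w h⟩⟩
      rw [h5] at h3
      omega
    obtain ⟨a', h5, h6⟩ := h4
    refine ⟨a', h5, ?_⟩
    have h7 : {y | r' y a'} = {v | ¬ Sink r' v} := by
      refine Set.eq_of_subset_of_ncard_le (fun y hy hs => hs a' hy) ?_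
      rw [← hk, ← Nat.card_coe_set_eq {y | r' y a'}]
      have h8 : Nat.card {y | r' y a'} = dn r' a' := rfl
      omega
    intro y hy
    have h8 : y ∈ {y | r' y a'} := by
      rw [h7]
      exact hy
    exact h8
  have hdna' : dn r' a' = {v | ¬ Sink r v}.ncard := by
    have h1 : {y | r' y a'} = {v | ¬ Sink r' v} := by
      ext y
      exact ⟨fun h hs => hs a' h, fun h => hdom' y h⟩
    rw [hk, ← h1, ← Nat.card_coe_set_eq]
    rfl
  obtain ⟨b', hb', hab'⟩ : ∃ b', b' ≠ a' ∧ ∀ v, Sink r' v ↔ v = a' ∨ v = b' := by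
    obtain ⟨c, d, hcd, hset⟩ := Set.ncard_eq_two.1 hsc'
    have hmem : ∀ v, Sink r' v ↔ v = c ∨ v = d := by
      intro v
      have : v ∈ {w | Sink r' w} ↔ v ∈ ({c, d} : Set V') := by rw [hset]
      exact this
    rcases (hmem a').1 ha' with rfl | rfl
    · exact ⟨d, hcd.symm, hmem⟩
    · exact ⟨c, hcd, fun v => (hmem v).trans or_comm⟩
  -- top vertices
  have htop : ∀ x, Top r x → ∀ y, r x y ↔ y = a := by
    intro x hx y
    constructor
    · intro h
      rcases (hab y).1 (hx.2 y h) with h' | rfl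
      · exact h'
      · exact absurd h (hxb x hx)
    · rintro rfl
      exact hdom x hx.1
  have hnot : ∀ x y, Top r x → Top r y → ¬ r x y := fun x y hx hy h => hy.1 (hx.2 y h)
  -- the isomorphisms of the cards
  have hcard : ∀ x, Top r x → ∃ (x' : V') (φ : del r x ≃r del r' x'), ¬ Sink r' x' ∧
      (∀ y, r' x' y ↔ y = a') ∧ φ a = a' ∧ (∀ hx : ¬ Sink r x, (eE ⟨x, hx⟩).1 = x') := by
    intro x hx
    obtain ⟨φ⟩ := hE ⟨x, hx.1⟩
    obtain ⟨x', hx', hex⟩ : ∃ x', ¬ Sink r' x' ∧ (eE ⟨x, hx.1⟩).1 = x' :=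
      ⟨_, (eE ⟨x, hx.1⟩).2, rfl⟩
    have hup' := hup ⟨x, hx.1⟩
    rw [hex] at φ hup'
    have hupx : up r x = 1 := by
      have h1 : {y | r x y} = {a} := by
        ext y
        exact htop x hx y
      have h2 : up r x = {y | r x y}.ncard := by
        rw [← Nat.card_coe_set_eq]
        rfl
      rw [h2, h1, Set.ncard_singleton]
    have hux' : ∀ y, r' x' y ↔ y = a' := by
      have h1 : {y | r' x' y}.ncard = 1 := by
        rw [← Nat.card_coe_set_eq]
        exact hup'.symm.trans hupx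
      obtain ⟨c, hc⟩ := Set.ncard_eq_one.1 h1
      have h2 : a' ∈ {y | r' x' y} := hdom' x' hx'
      rw [hc] at h2
      have h3 : a' = c := h2
      intro y
      have h4 : y ∈ {y | r' x' y} ↔ y ∈ ({c} : Set V') := by rw [hc]
      rw [h3]
      exact h4
    refine ⟨x', φ, hx', hux', ?_, fun _ => hex⟩
    obtain ⟨v, hv⟩ := φ.surjective a'
    have hvS : Sink (del r x) v := by
      rw [← sink_iso φ v, hv]
      exact (sink_del r' x' a').2 (Or.inl ha')
    have hdv : dn (del r x) v + 1 = {v | ¬ Sink r v}.ncard := by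
      rw [← dn_iso φ v, hv, ← hdna', dn_del r' x' a', if_pos (hdom' x' hx')]
    -- another top vertex
    obtain ⟨x₃, hx₃, hx₃x⟩ : ∃ x₃, Top r x₃ ∧ x₃ ≠ x := by
      by_cases h : x₁ = x
      · exact ⟨x₂, hx₂, fun h' => h12 (h.trans h'.symm)⟩
      · exact ⟨x₁, hx₁, h⟩
    have hsmall : ∀ w, (∀ y, r y w → ¬ Sink r y ∧ y ≠ x ∧ y ≠ x₃) →
        dn r w + 2 ≤ {v | ¬ Sink r v}.ncard := by
      intro w hw
      have h1 : dn r w ≤ ({v | ¬ Sink r v} \ {x, x₃}).ncard := by
        refine dn_le_of_sub fun y hy => ?_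
        obtain ⟨h2, h3, h4⟩ := hw y hy
        exact ⟨h2, by rintro (h | h); exacts [h3 h, h4 h]⟩
      have h2 : ({x, x₃} : Set V) ⊆ {v | ¬ Sink r v} := by
        rintro v (rfl | rfl)
        · exact hx.1
        · exact hx₃.1
      have h3 := Set.ncard_sdiff_add_ncard_of_subset h2
      rw [Set.ncard_pair hx₃x.symm] at h3
      omega
    rcases (sink_del r x v).1 hvS with h | h
    · rcases (hab v).1 h with rfl | rfl
      · exact hv
      · exfalso
        have h1 := hsmall v fun y hy => ⟨fun hs => hs _ hy, by rintro rfl; exact hxb _ hx hy, by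
          rintro rfl; exact hxb _ hx₃ hy⟩
        rw [dn_del r x v, if_neg (hxb x hx)] at h1
        omega
    · exfalso
      subst h
      have h1 := hsmall v fun y hy => ⟨fun hs => hs _ hy, by rintro rfl; exact hr.irr _ hy, by
        rintro rfl; exact hnot _ _ hx₃ hx hy⟩
      rw [dn_del r v v, if_neg (hr.irr v)] at h1
      omega
  by_contra hcon
  -- the isomorphisms exchange `x` and `b`
  have hcard2 : ∀ x, Top r x → ∃ (x' : V') (φ : V ≃ V'), ¬ Sink r' x' ∧
      (∀ u v, v ≠ a → (r u v ↔ r' (φ u) (φ v))) ∧ φ a = a' ∧ φ x = b' ∧ φ b = x' ∧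
      (∀ y, r' x' y ↔ y = a') ∧ (∀ hx : ¬ Sink r x, (eE ⟨x, hx⟩).1 = x') := by
    intro x hx
    obtain ⟨x', φ, hx', hux', hφa, hex⟩ := hcard x hx
    have hφxS : Sink (del r' x') (φ x) := (sink_iso φ x).2 ((sink_del r x x).2 (Or.inr rfl))
    have hφbS : Sink (del r' x') (φ b) := (sink_iso φ b).2 ((sink_del r x b).2 (Or.inl hb))
    have hxa : x ≠ a := by
      rintro rfl
      exact hx.1 ha
    have hxb' : x ≠ b := by
      rintro rfl
      exact hx.1 hb
    have hφx : φ x ≠ x' := by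
      intro h
      refine hcon (extend_iso φ h fun y => ?_)
      rw [htop x hx y, hux' (φ y), ← hφa]
      exact φ.injective.eq_iff.symm
    have h1 : φ x = b' := by
      rcases (hab' (φ x)).1 (((sink_del r' x' (φ x)).1 hφxS).resolve_right hφx) with h | h
      · exact absurd (φ.injective (h.trans hφa.symm)) hxa
      · exact h
    have h2 : φ b = x' := by
      rcases (sink_del r' x' (φ b)).1 hφbS with h | h
      · rcases (hab' (φ b)).1 h with h | h
        · exact absurd (φ.injective (h.trans hφa.symm)) hne.symm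
        · exact absurd (φ.injective (h.trans h1.symm)) hxb'.symm
      · exact h
    refine ⟨x', φ.toEquiv, hx', ?_, hφa, h1, h2, hux', hex⟩
    intro u v hv
    have h3 : del r' x' (φ u) (φ v) ↔ del r x u v := φ.map_rel_iff
    have hφv : φ v ≠ a' := fun h => hv (φ.injective (h.trans hφa.symm))
    constructor
    · intro h4
      refine (h3.2 ⟨h4, ?_⟩).1
      rintro rfl
      exact hv ((htop u hx v).1 h4)
    · intro h4
      refine (h3.1 ⟨h4, ?_⟩).1
      intro h5
      have h6 : r' (φ u) (φ v) := h4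
      rw [h5] at h6
      exact hφv ((hux' _).1 h6)
  obtain ⟨x₁', φ₁, hx₁', hQ₁, hφ₁a, hφ₁x, hφ₁b, hux₁', hex₁⟩ := hcard2 x₁ hx₁
  obtain ⟨x₂', φ₂, hx₂', hQ₂, hφ₂a, hφ₂x, hφ₂b, hux₂', hex₂⟩ := hcard2 x₂ hx₂
  have hne' : x₁' ≠ x₂' := by
    intro h
    have h1 : eE ⟨x₁, hx₁.1⟩ = eE ⟨x₂, hx₂.1⟩ :=
      Subtype.ext ((hex₁ hx₁.1).trans (h.trans (hex₂ hx₂.1).symm))
    exact h12 (congrArg Subtype.val (eE.injective h1))
  obtain ⟨y, hy⟩ := φ₂.surjective x₁'
  have hya : y ≠ a := by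
    rintro rfl
    exact hx₁' (by rw [← hy, hφ₂a]; exact ha')
  have hyup : ∀ v, r y v → v = a := by
    intro v hv
    by_contra hva
    have h1 := (hQ₂ y v hva).1 hv
    rw [hy] at h1
    exact hva (φ₂.injective (((hux₁' _).1 h1).trans hφ₂a.symm))
  have hytop : Top r y := by
    refine ⟨fun hs => ?_, fun v hv => (hyup v hv).symm ▸ ha⟩
    rcases (hab y).1 hs with h | h
    · exact hya h
    · rw [h, hφ₂b] at hy
      exact hne' hy.symm
  obtain ⟨y', φ₃, hy', hQ₃, hφ₃a, hφ₃y, hφ₃b, huy', hey⟩ := hcard2 y hytop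
  -- the composition
  have hz : φ₂.symm x₁' = y := by rw [← hy, Equiv.symm_apply_apply]
  refine hcon ⟨⟨(φ₁.trans φ₂.symm).trans φ₃, ?_⟩⟩
  intro u v
  show r' (φ₃ (φ₂.symm (φ₁ u))) (φ₃ (φ₂.symm (φ₁ v))) ↔ r u v
  have hta : φ₂.symm (φ₁ a) = a := by rw [hφ₁a, ← hφ₂a, Equiv.symm_apply_apply]
  by_cases hva : v = a
  · subst hva
    rw [hta, hφ₃a]
    have h1 : r u v ↔ ¬ (u = v ∨ u = b) := by
      rw [← hab u]
      exact ⟨fun h hs => hs v h, fun h => hdom u h⟩
    have h2 : ∀ w, r' w a' ↔ ¬ (w = a' ∨ w = b') := by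
      intro w
      rw [← hab' w]
      exact ⟨fun h hs => hs a' h, fun h => hdom' w h⟩
    rw [h1, h2]
    refine not_congr (or_congr ?_ ?_)
    · rw [← hφ₃a, φ₃.injective.eq_iff]
      constructor
      · intro h
        have h3 : φ₂.symm (φ₁ u) = φ₂.symm (φ₁ v) := h.trans hta.symm
        exact φ₁.injective (φ₂.symm.injective h3)
      · rintro rfl
        exact hta
    · rw [← hφ₃y, φ₃.injective.eq_iff, ← hz, φ₂.symm.injective.eq_iff, ← hφ₁b,
        φ₁.injective.eq_iff]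
  · have h1 : φ₂.symm (φ₁ v) ≠ a := by
      intro h
      have h3 : φ₂.symm (φ₁ v) = φ₂.symm (φ₁ a) := h.trans hta.symm
      exact hva (φ₁.injective (φ₂.symm.injective h3))
    rw [← hQ₃ _ _ h1, hQ₂ _ _ h1, Equiv.apply_symm_apply, Equiv.apply_symm_apply,
      ← hQ₁ _ _ hva]

/-- **At most two sinks.** -/
theorem two_sinks (hr : SOrd r) (hr' : SOrd r')
    (hdn : ∀ j, {w | Sink r w ∧ dn r w ≤ j}.ncard = {w | Sink r' w ∧ dn r' w ≤ j}.ncard)
    (eE : {x // ¬ Sink r x} ≃ {x // ¬ Sink r' x})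
    (hE : ∀ x, Nonempty (del r x.1 ≃r del r' (eE x).1))
    (hup : ∀ x, up r x.1 = up r' (eE x).1) (hcard : Nat.card V = Nat.card V')
    (h2 : {v | Sink r v}.ncard ≤ 2) : Nonempty (r ≃r r') := by
  classical
  by_cases hN : ∀ v, Sink r v
  · have hN' : ∀ v, Sink r' v := by
      intro v
      by_contra hv
      exact (eE.symm ⟨v, hv⟩).2 (hN _)
    obtain ⟨e⟩ := Finite.card_eq.1 hcard
    exact ⟨⟨e, fun {a b} => ⟨fun h => absurd h (hN' _ _), fun h => absurd h (hN _ _)⟩⟩⟩
  push Not at hN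
  obtain ⟨y₀, hy₀⟩ := hN
  obtain ⟨x₀, hx₀, -⟩ := exists_top hr hy₀
  by_cases h1 : ∃ x, Top r x ∧ ∀ w, Sink r w → r x w
  · obtain ⟨x, hx, hall⟩ := h1
    obtain ⟨φ⟩ := hE ⟨x, hx.1⟩
    exact single_card hr hr' hdn hx.1 (eE ⟨x, hx.1⟩).2 φ (hup ⟨x, hx.1⟩) hx.2
      (fun z hz hxz _ => absurd (hall z hz) hxz)
      (fun v v' _ hv' hxv' => absurd (hall v' hv') hxv')
  push Not at h1
  -- exactly two sinks
  obtain ⟨a, b, hne, hab⟩ : ∃ a b, a ≠ b ∧ ∀ v, Sink r v ↔ v = a ∨ v = b := by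
    obtain ⟨w, hw, hxw⟩ := h1 x₀ hx₀
    have h3 : ∃ v, r x₀ v := by
      by_contra hcon
      push Not at hcon
      exact hx₀.1 hcon
    obtain ⟨v, hv⟩ := h3
    have hvw : v ≠ w := by
      rintro rfl
      exact hxw hv
    have h4 : ({v, w} : Set V) = {v | Sink r v} := by
      refine Set.eq_of_subset_of_ncard_le ?_ ?_
      · rintro u (rfl | rfl)
        · exact hx₀.2 _ hv
        · exact hw
      · rw [Set.ncard_pair hvw]
        exact h2
    refine ⟨v, w, hvw, fun u => ?_⟩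
    have h5 : u ∈ ({v, w} : Set V) ↔ u ∈ {v | Sink r v} := by rw [h4]
    exact h5.symm
  have hsome : ∀ x, Top r x → (r x a ∨ r x b) ∧ ¬ (r x a ∧ r x b) := by
    intro x hx
    constructor
    · by_contra hcon
      push Not at hcon
      refine hx.1 fun y hy => ?_
      rcases (hab y).1 (hx.2 y hy) with rfl | rfl
      · exact hcon.1 hy
      · exact hcon.2 hy
    · rintro ⟨h3, h4⟩
      obtain ⟨w, hw, hxw⟩ := h1 x hx
      rcases (hab w).1 hw with rfl | rfl
      · exact hxw h3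
      · exact hxw h4
  -- the case of one dominating sink
  have key : ∀ a b, a ≠ b → (∀ v, Sink r v ↔ v = a ∨ v = b) → (∀ x, Top r x → r x a) →
      (∀ x, Top r x → ¬ r x b) → Nonempty (r ≃r r') := by
    intro a b hne hab hta htb
    have hdom : ∀ y, ¬ Sink r y → r y a := by
      intro y hy
      obtain ⟨x, hx, h | h⟩ := exists_top hr hy
      · rw [h]
        exact hta x hx
      · exact hr.tr _ _ _ h (hta x hx)
    by_cases h3 : ∀ y, Top r y → y = x₀
    · exact one_top hr hr' hdn eE hE hup (fun v hv => (hab v).1 hv) hdom hx₀ (htb x₀ hx₀) h3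
    · push Not at h3
      obtain ⟨y, hy, hyx⟩ := h3
      exact many_top hr hr' hdn eE hE hup hne hab hdom htb hy hx₀ hyx
  by_cases h3 : ∃ x, Top r x ∧ r x a
  · by_cases h4 : ∃ x, Top r x ∧ r x b
    · obtain ⟨xa, hxa, hxa'⟩ := h3
      obtain ⟨xb, hxb, hxb'⟩ := h4
      have h5 : ¬ r xa b := fun h => (hsome xa hxa).2 ⟨hxa', h⟩
      have h6 : ¬ r xb a := fun h => (hsome xb hxb).2 ⟨h, hxb'⟩
      by_cases h7 : dn r a + 1 = dn r b
      · exact two_case hr hr' hdn eE hE hup (fun v hv => ((hab v).1 hv).symm) hxb hxa hxb' h6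
          hxa' h5 (by omega)
      · exact two_case hr hr' hdn eE hE hup (fun v hv => (hab v).1 hv) hxa hxb hxa' h5 hxb' h6 h7
    · push Not at h4
      exact key a b hne hab (fun x hx => ((hsome x hx).1).resolve_right (h4 x hx)) h4
  · push Not at h3
    exact key b a hne.symm (fun v => (hab v).trans or_comm)
      (fun x hx => ((hsome x hx).1).resolve_left (h3 x hx)) h3

end Pool.Agent.H22K
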